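import Pool.Agent.R904.CU.Shift
import Pool.Agent.Y116.UV.Geo

/-!
# Quadratic presentations with many variables, and the hypersurfaces `∑ yₖ gₖ(x) = 1` in `Sch R`
-/

set_option autoImplicit false

open CategoryTheory CategoryTheory.Limits AlgebraicGeometry MvPolynomial
open Pool.Agent.R904.CU Pool.Agent.Y116.UV

namespace Pool.Agent.E8helper3.CH

variable {R : Type} [CommRing R]

section more

variable {σ κ : Type} (g : κ → MvPolynomial σ R) (τ : Type)

/-- the given polynomials and the additional variables -/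
noncomputable def more : κ ⊕ τ → MvPolynomial (σ ⊕ τ) R :=
  Sum.elim (fun k => rename Sum.inl (g k)) fun t => X (Sum.inr t)

/-- forgetting the additional variables -/
noncomputable def moreF : (MvPolynomial (σ ⊕ τ) R ⧸ Ideal.span (Set.range (more g τ))) →ₐ[R]
    (MvPolynomial σ R ⧸ Ideal.span (Set.range g)) :=
  Ideal.Quotient.liftₐ _ (aeval (Sum.elim (fun s => Ideal.Quotient.mk _ (X s)) fun _ => 0)) (by
    intro a ha
    have h : Ideal.span (Set.range (more g τ)) ≤ RingHom.ker
        (aeval (Sum.elim (fun s => Ideal.Quotient.mk _ (X s)) fun _ => 0) :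
          MvPolynomial (σ ⊕ τ) R →ₐ[R] (MvPolynomial σ R ⧸ Ideal.span (Set.range g))) := by
      rw [Ideal.span_le]
      rintro _ ⟨k | t, rfl⟩
      · change aeval _ (rename Sum.inl (g k)) = 0
        rw [aeval_rename, Sum.elim_comp_inl]
        have h1 : (aeval (fun s => Ideal.Quotient.mk (Ideal.span (Set.range g)) (X s)) :
            MvPolynomial σ R →ₐ[R] _) = Ideal.Quotient.mkₐ R _ := by
          apply MvPolynomial.algHom_ext
          intro s
          rw [aeval_X]
          rfl
        rw [h1]
        exact Ideal.Quotient.eq_zero_iff_mem.2 (Ideal.subset_span ⟨k, rfl⟩)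
      · change aeval _ (X (Sum.inr t)) = 0
        rw [aeval_X, Sum.elim_inr]
    exact h ha)

/-- the inclusion -/
noncomputable def moreG : (MvPolynomial σ R ⧸ Ideal.span (Set.range g)) →ₐ[R]
    (MvPolynomial (σ ⊕ τ) R ⧸ Ideal.span (Set.range (more g τ))) :=
  Ideal.Quotient.liftₐ _ ((Ideal.Quotient.mkₐ R _).comp (rename Sum.inl)) (by
    intro a ha
    have h : Ideal.span (Set.range g) ≤ RingHom.ker
        ((Ideal.Quotient.mkₐ R (Ideal.span (Set.range (more g τ)))).comp (rename Sum.inl)) := by
      rw [Ideal.span_le]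
      rintro _ ⟨k, rfl⟩
      exact Ideal.Quotient.eq_zero_iff_mem.2 (Ideal.subset_span ⟨Sum.inl k, rfl⟩)
    exact h ha)

/-- the quotient rings agree -/
noncomputable def moreE : (MvPolynomial (σ ⊕ τ) R ⧸ Ideal.span (Set.range (more g τ))) ≃ₐ[R]
    (MvPolynomial σ R ⧸ Ideal.span (Set.range g)) :=
  AlgEquiv.ofAlgHom (moreF g τ) (moreG g τ)
    (by
      apply Ideal.Quotient.algHom_ext
      apply MvPolynomial.algHom_ext
      intro s
      change moreF g τ (Ideal.Quotient.mk _ (rename Sum.inl (X s))) = Ideal.Quotient.mk _ (X s)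
      rw [rename_X]
      change aeval _ (X (Sum.inl s)) = _
      rw [aeval_X, Sum.elim_inl])
    (by
      apply Ideal.Quotient.algHom_ext
      apply MvPolynomial.algHom_ext
      rintro (s | t)
      · change moreG g τ (aeval _ (X (Sum.inl s))) = Ideal.Quotient.mk _ (X (Sum.inl s))
        rw [aeval_X, Sum.elim_inl]
        change Ideal.Quotient.mk _ (rename Sum.inl (X s)) = _
        rw [rename_X]
      · change moreG g τ (aeval _ (X (Sum.inr t))) = Ideal.Quotient.mk _ (X (Sum.inr t))
        rw [aeval_X, Sum.elim_inr, map_zero]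
        symm
        exact Ideal.Quotient.eq_zero_iff_mem.2 (Ideal.subset_span ⟨Sum.inr t, rfl⟩))

theorem totalDegree_more (hg : ∀ k, (g k).totalDegree ≤ 2) (k : κ ⊕ τ) :
    (more g τ k).totalDegree ≤ 2 := by
  rcases k with k | t
  · exact (totalDegree_rename_le _ _).trans (hg k)
  · exact (totalDegree_monomial_le _ _).trans (by simp)

end more

/-- A finitely generated algebra over a noetherian ring has presentations by quadratic polynomials
in arbitrarily many variables. -/
theorem exists_quadratic_many (R : Type) [CommRing R] [IsNoetherianRing R] (B : Type) [CommRing B]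
    [Algebra R B] [Algebra.FiniteType R B] : ∃ n₀ : ℕ, ∀ n : ℕ, n₀ ≤ n →
    ∃ (κ : Type) (_ : Fintype κ) (g : κ → MvPolynomial (Fin n) R), Nonempty κ ∧
      (∀ k, (g k).totalDegree ≤ 2) ∧
      Nonempty ((MvPolynomial (Fin n) R ⧸ Ideal.span (Set.range g)) ≃ₐ[R] B) := by
  obtain ⟨σ, κ, _, _, g, hg, ⟨e⟩⟩ := exists_quadratic R B
  refine ⟨Fintype.card σ, fun n hn => ?_⟩
  obtain ⟨r, rfl⟩ := Nat.exists_eq_add_of_le hn
  have hc : Fintype.card (σ ⊕ Fin r) = Fintype.card σ + r := by
    rw [Fintype.card_sum, Fintype.card_fin]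
  let u : σ ⊕ Fin r ≃ Fin (Fintype.card σ + r) := Fintype.equivFinOfCardEq hc
  let g' : Option (κ ⊕ Fin r) → MvPolynomial (Fin (Fintype.card σ + r)) R := fun k =>
    k.elim 0 fun k => rename u (more g (Fin r) k)
  refine ⟨Option (κ ⊕ Fin r), inferInstance, g', ⟨none⟩, ?_, ⟨?_⟩⟩
  · rintro (_ | k)
    · exact (totalDegree_zero (R := R)).le.trans (Nat.zero_le _)
    · exact (totalDegree_rename_le _ _).trans (totalDegree_more g (Fin r) hg k)
  refine AlgEquiv.trans ?_ ((moreE g (Fin r)).trans e)
  refine (Ideal.quotientEquivAlg _ _ (renameEquiv R u) ?_).symm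
  rw [Ideal.map_span, ← Set.range_comp]
  apply le_antisymm
  · rw [Ideal.span_le]
    rintro _ ⟨_ | k, rfl⟩
    · exact Ideal.zero_mem _
    · exact Ideal.subset_span ⟨k, rfl⟩
  · rw [Ideal.span_le]
    rintro _ ⟨k, rfl⟩
    exact Ideal.subset_span ⟨some k, rfl⟩

/-- the ring of functions on the hypersurface `∑ yₖ gₖ(x) = 1` -/
abbrev QRg {σ κ : Type} [Fintype κ] (g : κ → MvPolynomial σ R) : Type :=
  MvPolynomial (κ ⊕ σ) R ⧸ Ideal.span {bigPoly g}

/-- the hypersurface `∑ yₖ gₖ(x) = 1` over `R` -/
noncomputable def cub {σ κ : Type} [Fintype κ] (g : κ → MvPolynomial σ R) : Sch R := aff R (QRg g)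

section bundles

variable {σ κ : Type} [Fintype κ] (g : κ → MvPolynomial σ R)

/-- the complement of the common zeros -/
noncomputable def cmp : Sch R := opn (aff R (MvPolynomial σ R)) (openU g)

/-- its inclusion -/
noncomputable def cmpMap : cmp g ⟶ aff R (MvPolynomial σ R) :=
  opnMap (aff R (MvPolynomial σ R)) (openU g)

/-- the inclusion of the common zeros -/
noncomputable def zerMap {σ κ : Type} (g : κ → MvPolynomial σ R) : aff R (MvPolynomial σ R ⧸ Ideal.span (Set.range g)) ⟶
    aff R (MvPolynomial σ R) :=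
  affMap (Ideal.Quotient.mkₐ R (Ideal.span (Set.range g)))

theorem triple_zer : IsTriple (zerMap g) (cmpMap g) where
  closed := closed_affMap _ (Ideal.Quotient.mkₐ_surjective R _)
  opened := inferInstanceAs (IsOpenImmersion (openU g).ι)
  compl := range_closedZ g

theorem ft_cmp [IsNoetherianRing R] [Fintype σ] (sep : Prop) : FT sep (cmp g) := by
  refine ft_opn (ft_aff sep) _ ?_
  have h1 : IsNoetherianRing (MvPolynomial σ R) := inferInstance
  have h2 : TopologicalSpace.NoetherianSpace (PrimeSpectrum (MvPolynomial σ R)) := inferInstance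
  exact h2.isCompact _

/-- the affine bundle over the complement -/
noncomputable def bunMap : aff R (Ring1 g) ⟶ cmp g := Over.homMk (proj g) (by
  change proj g ≫ (openU g).ι ≫
      Spec.map (CommRingCat.ofHom (algebraMap R (MvPolynomial σ R))) =
      Spec.map (CommRingCat.ofHom (algebraMap R (Ring1 g)))
  rw [← Category.assoc, proj_ι]
  unfold proj0
  rw [← Spec.map_comp, ← CommRingCat.ofHom_comp])

theorem isAffineBundle_bunMap : IsAffineBundle (Fintype.card κ - 1) (bunMap g).left :=
  isAffineBundle_proj g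

/-- the affine bundle is the hypersurface -/
noncomputable def cubIso : cub g ≅ aff R (Ring1 g) :=
  (affIso (Ideal.quotientEquivAlg _ _ (sumAlgEquiv R κ σ) (by
    rw [Ideal.map_span, Set.image_singleton]
    congr 2
    exact (sumAlgEquiv_bigPoly g).symm))).symm

theorem ft_cub [Fintype σ] (sep : Prop) : FT sep (cub g) := ft_aff sep

theorem ft_bun [Fintype σ] (sep : Prop) : FT sep (aff R (Ring1 g)) := ft_aff sep

end bundles

/-- the projection of an affine space -/
noncomputable def spMap (R : Type) [CommRing R] (σ : Type) : aff R (MvPolynomial σ R) ⟶ aff R R :=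
  affMap (Algebra.ofId R (MvPolynomial σ R))

theorem isAffineBundle_sp (R : Type) [CommRing R] (σ : Type) [Fintype σ] :
    IsAffineBundle (Fintype.card σ)
      (Spec.map (CommRingCat.ofHom (algebraMap R (MvPolynomial σ R)))) := by
  intro x
  refine ⟨.of R, 𝟙 _, σ, inferInstance, 𝟙 _, rfl, inferInstance, ⟨x, rfl⟩, ?_⟩
  exact IsPullback.of_horiz_isIso ⟨by rw [Category.comp_id, Category.id_comp]; rfl⟩

theorem isAffineBundle_spMap (R : Type) [CommRing R] (σ : Type) [Fintype σ] :
    IsAffineBundle (Fintype.card σ) (spMap R σ).left :=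
  isAffineBundle_sp R σ

end Pool.Agent.E8helper3.CH
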