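import Pool.Agent.E8helper3.CH.Cpt

/-!
# Borel-Moore homology with values in an abelian category: the exact formula for the hypersurface
`∑ yₖ gₖ(x) = 1`
-/

set_option autoImplicit false

open CategoryTheory CategoryTheory.Limits AlgebraicGeometry MvPolynomial
open Pool.Agent.R904.CU Pool.Agent.Y116.UV

namespace Pool.Agent.E8helper3.CH

/-- A Borel-Moore homology theory with values in the abelian category `𝒜`, for the separated schemes
of finite type over `R`: the objects `H_j(X, w)` and their formal properties. -/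
structure BorelMoore (R : Type) [CommRing R] (𝒜 : Type 1) [Category.{0} 𝒜] [Abelian 𝒜] where
  /-- the object `H_j(X, w)` -/
  H : ℤ → ℤ → Sch R → 𝒜
  /-- the restriction `H_j(X, w) → H_j(U, w)` to an open subscheme (for other morphisms nothing is
  assumed) -/
  res : ∀ (j w : ℤ) {U X : Sch R}, (U ⟶ X) → (H j w X ⟶ H j w U)
  /-- isomorphic schemes have isomorphic homology -/
  iso : ∀ (j w : ℤ) {X Y : Sch R}, FT True X → (X ≅ Y) → Nonempty (H j w X ≅ H j w Y)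
  /-- the sequence `H_{j+1}(X) → H_{j+1}(U) → H_j(Z) → H_j(X) → H_j(U)` of a closed subscheme `Z` of `X`
  with open complement `U` -/
  localization : ∀ {Z X U : Sch R} (c : Z ⟶ X) (u : U ⟶ X), FT True X → IsTriple c u → ∀ w : ℤ,
    ∃ (a : ∀ j, H j w Z ⟶ H j w X) (d : ∀ j, H (j + 1) w U ⟶ H j w Z),
      (∀ j, ExactPair (a j) (res j w u)) ∧ (∀ j, ExactPair (res (j + 1) w u) (d j)) ∧
      ∀ j, ExactPair (d j) (a j)
  /-- `H_{j+2N}(E, w+N) = H_j(X, w)` for an affine bundle `E → X` of rank `N` -/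
  bundle : ∀ (N : ℕ) (j w : ℤ) {E X : Sch R} (π : E ⟶ X), FT True X → FT True E →
    IsAffineBundle N π.left → Nonempty (H (j + 2 * N) (w + N) E ≅ H j w X)
  /-- the pull-back `H_{j+2M}(U, w+M) → H_j(R, w)` along a section `x` of a smooth scheme `U` of relative
  dimension `M` (otherwise nothing is assumed) -/
  fibre : ∀ (M : ℕ) (j w : ℤ) {U : Sch R}, (aff R R ⟶ U) →
    (H (j + 2 * M) (w + M) U ⟶ H j w (aff R R))
  /-- the pull-backs are compatible with the restriction to open subschemes of the affine space `𝔸^M` -/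
  fibre_open : ∀ (M : ℕ) (j w : ℤ) {U : Sch R} (u : U ⟶ aff R (MvPolynomial (Fin M) R))
    (x : aff R R ⟶ U), IsOpenImmersion u.left →
    res (j + 2 * M) (w + M) u ≫ fibre M j w x = fibre M j w (x ≫ u)
  /-- the pull-back along a section of the affine space is an isomorphism -/
  fibre_space : ∀ (M : ℕ) (j w : ℤ) (x : aff R R ⟶ aff R (MvPolynomial (Fin M) R)),
    IsIso (fibre M j w x)

section algebra

variable {𝒜 : Type 1} [Category.{0} 𝒜] [Abelian 𝒜]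

theorem split_iso' {A B C A' B' : 𝒜} {e : A' ⟶ B'} {d : B' ⟶ C} {a : C ⟶ A} {f : A ⟶ B}
    (h1 : ExactPair e d) (h2 : ExactPair d a) (h3 : ExactPair a f) (s : B ⟶ A) (hs : f ≫ s = 𝟙 A)
    (s' : B' ⟶ A') (hs' : e ≫ s' = 𝟙 A') : Nonempty (B' ≅ C ⊞ A') := by
  obtain ⟨w1, x1⟩ := h1
  obtain ⟨w2, x2⟩ := h2
  obtain ⟨w3, -⟩ := h3
  have ha : a = 0 := by
    rw [← Category.comp_id a, ← hs, ← Category.assoc, w3, zero_comp]
  have hd : Epi d := x2.epi_f ha
  exact ⟨(ShortComplex.Splitting.ofExactOfRetraction (ShortComplex.mk e d w1) x1 s' hs'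
    hd).isoBinaryBiproduct ≪≫ biprod.braiding _ _⟩

end algebra

namespace BorelMoore

variable {R : Type} [CommRing R] {𝒜 : Type 1} [Category.{0} 𝒜] [Abelian 𝒜] (T : BorelMoore R 𝒜)

theorem exists_split {M : ℕ} {U : Sch R} (u : U ⟶ aff R (MvPolynomial (Fin M) R))
    (hu : IsOpenImmersion u.left) (x : aff R R ⟶ U) (j w : ℤ) :
    ∃ s : T.H j w U ⟶ T.H j w (aff R (MvPolynomial (Fin M) R)), T.res j w u ≫ s = 𝟙 _ := by
  obtain ⟨j, rfl⟩ : ∃ j', j = j' + 2 * (M : ℤ) := ⟨j - 2 * M, by ring⟩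
  obtain ⟨w, rfl⟩ : ∃ w', w = w' + (M : ℤ) := ⟨w - M, by ring⟩
  have h := T.fibre_space M j w (x ≫ u)
  refine ⟨T.fibre M j w x ≫ inv (T.fibre M j w (x ≫ u)), ?_⟩
  rw [← Category.assoc, T.fibre_open M j w u x hu, IsIso.hom_inv_id]

/-- the homology of the affine space -/
theorem space (M : ℕ) (j w : ℤ) : Nonempty (T.H j w (aff R (MvPolynomial (Fin M) R)) ≅
    T.H (j - 2 * M) (w - M) (aff R R)) := by
  obtain ⟨e⟩ := T.bundle (Fintype.card (Fin M)) (j - 2 * M) (w - M) (spMap R (Fin M))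
    (ft_aff True) (ft_aff True) (isAffineBundle_spMap R (Fin M))
  rw [Fintype.card_fin, sub_add_cancel, sub_add_cancel] at e
  exact ⟨e⟩

/-- **The formula** for the hypersurface and the common zeros. -/
theorem formula [IsNoetherianRing R] {M : ℕ} {κ : Type} [Fintype κ]
    (g : κ → MvPolynomial (Fin M) R) (l : κ) (x : Fin M → R) (hx : aeval x (g l) = 1) (j w : ℤ) :
    Nonempty (T.H (j + 1 + 2 * (Fintype.card κ - 1 : ℕ)) (w + (Fintype.card κ - 1 : ℕ)) (cub g) ≅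
      T.H j w (aff R (MvPolynomial (Fin M) R ⧸ Ideal.span (Set.range g))) ⊞
        T.H (j + 1 - 2 * M) (w - M) (aff R R)) := by
  obtain ⟨p⟩ := exists_pt g l x hx
  obtain ⟨s, -⟩ := exists_section g p
  have hop : IsOpenImmersion (cmpMap g).left := (triple_zer g).opened
  obtain ⟨s0, h0⟩ := T.exists_split (cmpMap g) hop (s ≫ bunMap g) j w
  obtain ⟨s1, h1⟩ := T.exists_split (cmpMap g) hop (s ≫ bunMap g) (j + 1) w
  obtain ⟨a, d, x1, x2, x3⟩ := T.localization (zerMap g) (cmpMap g) (ft_aff True) (triple_zer g) w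
  obtain ⟨e1⟩ := split_iso' (x2 j) (x3 j) (x1 j) s0 h0 s1 h1
  obtain ⟨e2⟩ := T.bundle _ (j + 1) w (bunMap g) (ft_cmp g True) (ft_bun g True)
    (isAffineBundle_bunMap g)
  obtain ⟨e3⟩ := T.iso (j + 1 + 2 * (Fintype.card κ - 1 : ℕ)) (w + (Fintype.card κ - 1 : ℕ))
    (ft_cub g True) (cubIso g)
  obtain ⟨e4⟩ := T.space M (j + 1) w
  exact ⟨e3 ≪≫ e2 ≪≫ e1 ≪≫ biprod.mapIso (Iso.refl _) e4⟩

end BorelMoore

/-- **The formula for an arbitrary scheme.** -/
theorem bm_formula (R : Type) [CommRing R] [IsNoetherianRing R] (X : Sch R) (hX : InJ True X) :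
    ∃ N m₀ : ℕ, ∀ m : ℕ, m₀ ≤ m → ∃ (r : ℕ) (g : Fin (r + 1) → MvPolynomial (Fin (m + N)) R),
      (∀ l, (g l).totalDegree ≤ 2) ∧
      ∀ (𝒜 : Type 1) [Category.{0} 𝒜] [Abelian 𝒜] (T : BorelMoore R 𝒜) (j w : ℤ),
        Nonempty (T.H (j + 1 + 2 * N + 2 * r) (w + N + r) (cub g) ≅
          T.H j w X ⊞ T.H (j + 1 - 2 * m) (w - m) (aff R R)) := by
  obtain ⟨hX, N, B, _, _, _, π, hπ⟩ := hX
  obtain ⟨n₀, hn⟩ := exists_quadratic_fin R B
  refine ⟨N, n₀, fun m hm => ?_⟩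
  obtain ⟨r, g, ⟨l, x, hx⟩, hg, ⟨e⟩⟩ := hn (m + N) (by omega)
  refine ⟨r, g, hg, fun 𝒜 _ _ T j w => ?_⟩
  obtain ⟨e1⟩ := T.formula g l x hx (j + 2 * N) (w + N)
  obtain ⟨e2⟩ := T.bundle N j w π hX (ft_aff True) hπ
  obtain ⟨e3⟩ := T.iso (j + 2 * N) (w + N) (ft_aff True) (affIso e).symm
  rw [Fintype.card_fin, Nat.add_sub_cancel] at e1
  have a1 : j + 2 * (N : ℤ) + 1 + 2 * (r : ℤ) = j + 1 + 2 * N + 2 * r := by ring
  have a2 : j + 2 * (N : ℤ) + 1 - 2 * ((m + N : ℕ) : ℤ) = j + 1 - 2 * m := by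
    push_cast
    ring
  have a3 : w + (N : ℤ) - ((m + N : ℕ) : ℤ) = w - m := by
    push_cast
    ring
  rw [a1, a2, a3] at e1
  exact ⟨e1 ≪≫ biprod.mapIso (e3 ≪≫ e2) (Iso.refl _)⟩

end Pool.Agent.E8helper3.CH
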