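import Pool.Agent.E8helper3.CH.Pt

/-!
# Cohomology with compact supports with values in an abelian category: the exact formula for the
hypersurface `∑ yₖ gₖ(x) = 1`
-/

set_option autoImplicit false

open CategoryTheory CategoryTheory.Limits AlgebraicGeometry MvPolynomial
open Pool.Agent.R904.CU Pool.Agent.Y116.UV

namespace Pool.Agent.E8helper3.CH

/-- exactness of `A → B → C` -/
def ExactPair {𝒜 : Type 1} [Category.{0} 𝒜] [Abelian 𝒜] {A B C : 𝒜} (f : A ⟶ B) (g : B ⟶ C) : Prop :=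
  ∃ w : f ≫ g = 0, (ShortComplex.mk f g w).Exact

/-- A cohomology theory with compact supports with values in the abelian category `𝒜`, for the
separated schemes of finite type over `k`: the objects `H^i_c(X, n)` and their formal properties. -/
structure CompactTheory (k : Type) [Field k] (𝒜 : Type 1) [Category.{0} 𝒜] [Abelian 𝒜] where
  /-- the object `H^i_c(X, n)` -/
  H : ℤ → ℤ → Sch k → 𝒜
  /-- the map `H^i_c(U, n) → H^i_c(X, n)` for open immersions (for other morphisms nothing is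
  assumed) -/
  ext : ∀ (i n : ℤ) {U X : Sch k}, (U ⟶ X) → (H i n U ⟶ H i n X)
  /-- isomorphic schemes have isomorphic cohomology -/
  iso : ∀ (i n : ℤ) {X Y : Sch k}, FT True X → (X ≅ Y) → Nonempty (H i n X ≅ H i n Y)
  /-- the sequence `⋯ → H^i_c(U) → H^i_c(X) → H^i_c(Z) → H^{i+1}_c(U) → H^{i+1}_c(X) → ⋯` of a closed
  subscheme `Z` of `X` with open complement `U` -/
  localization : ∀ {Z X U : Sch k} (c : Z ⟶ X) (j : U ⟶ X), FT True X → IsTriple c j → ∀ n : ℤ,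
    ∃ (r : ∀ i, H i n X ⟶ H i n Z) (d : ∀ i, H i n Z ⟶ H (i + 1) n U),
      (∀ i, ExactPair (ext i n j) (r i)) ∧ (∀ i, ExactPair (r i) (d i)) ∧
      ∀ i, ExactPair (d i) (ext (i + 1) n j)
  /-- `H^{i+2N}_c(E, n+N) = H^i_c(X, n)` for an affine bundle `E → X` of rank `N` -/
  bundle : ∀ (N : ℕ) (i n : ℤ) {E X : Sch k} (π : E ⟶ X), FT True X → FT True E →
    IsAffineBundle N π.left → Nonempty (H (i + 2 * N) (n + N) E ≅ H i n X)
  /-- the Gysin map of a rational point `x` of a smooth scheme of dimension `M` (otherwise nothing is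
  assumed) -/
  gysin : ∀ (M : ℕ) (i n : ℤ) {U : Sch k}, (aff k k ⟶ U) →
    (H i n (aff k k) ⟶ H (i + 2 * M) (n + M) U)
  /-- the Gysin maps are compatible with open subschemes of the affine space `𝔸^M` -/
  gysin_open : ∀ (M : ℕ) (i n : ℤ) {U : Sch k} (j : U ⟶ aff k (MvPolynomial (Fin M) k))
    (x : aff k k ⟶ U), IsOpenImmersion j.left →
    gysin M i n x ≫ ext (i + 2 * M) (n + M) j = gysin M i n (x ≫ j)
  /-- the Gysin map of a rational point of the affine space is an isomorphism -/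
  gysin_space : ∀ (M : ℕ) (i n : ℤ) (x : aff k k ⟶ aff k (MvPolynomial (Fin M) k)),
    IsIso (gysin M i n x)

section algebra

variable {𝒜 : Type 1} [Category.{0} 𝒜] [Abelian 𝒜]

theorem split_iso {A B C A' B' : 𝒜} {e : A ⟶ B} {r : B ⟶ C} {d : C ⟶ A'} {e' : A' ⟶ B'}
    (h1 : ExactPair e r) (h2 : ExactPair r d) (h3 : ExactPair d e') (s : B ⟶ A) (hs : s ≫ e = 𝟙 B)
    (s' : B' ⟶ A') (hs' : s' ≫ e' = 𝟙 B') : Nonempty (A' ≅ C ⊞ B') := by
  obtain ⟨w1, -⟩ := h1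
  obtain ⟨w2, x2⟩ := h2
  obtain ⟨w3, x3⟩ := h3
  have hr : r = 0 := by
    rw [← Category.id_comp r, ← hs, Category.assoc, w1, comp_zero]
  have hd : Mono d := x2.mono_g hr
  exact ⟨(ShortComplex.Splitting.ofExactOfSection (ShortComplex.mk d e' w3) x3 s' hs'
    hd).isoBinaryBiproduct⟩

end algebra

namespace CompactTheory

variable {k : Type} [Field k] {𝒜 : Type 1} [Category.{0} 𝒜] [Abelian 𝒜] (T : CompactTheory k 𝒜)

theorem exists_split {M : ℕ} {U : Sch k} (j : U ⟶ aff k (MvPolynomial (Fin M) k))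
    (hj : IsOpenImmersion j.left) (x : aff k k ⟶ U) (i n : ℤ) :
    ∃ s : T.H i n (aff k (MvPolynomial (Fin M) k)) ⟶ T.H i n U, s ≫ T.ext i n j = 𝟙 _ := by
  obtain ⟨i, rfl⟩ : ∃ i', i = i' + 2 * (M : ℤ) := ⟨i - 2 * M, by ring⟩
  obtain ⟨n, rfl⟩ : ∃ n', n = n' + (M : ℤ) := ⟨n - M, by ring⟩
  have h := T.gysin_space M i n (x ≫ j)
  refine ⟨inv (T.gysin M i n (x ≫ j)) ≫ T.gysin M i n x, ?_⟩
  rw [Category.assoc, T.gysin_open M i n j x hj, IsIso.inv_hom_id]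

/-- the cohomology of the affine space -/
theorem space (M : ℕ) (i n : ℤ) : Nonempty (T.H i n (aff k (MvPolynomial (Fin M) k)) ≅
    T.H (i - 2 * M) (n - M) (aff k k)) := by
  obtain ⟨e⟩ := T.bundle (Fintype.card (Fin M)) (i - 2 * M) (n - M) (spMap k (Fin M))
    (ft_aff True) (ft_aff True) (isAffineBundle_spMap k (Fin M))
  rw [Fintype.card_fin, sub_add_cancel, sub_add_cancel] at e
  exact ⟨e⟩

/-- **The formula** for the hypersurface and the common zeros. -/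
theorem formula {M : ℕ} {κ : Type} [Fintype κ] (g : κ → MvPolynomial (Fin M) k) (l : κ)
    (x : Fin M → k) (hx : aeval x (g l) = 1) (i n : ℤ) :
    Nonempty (T.H (i + 1 + 2 * (Fintype.card κ - 1 : ℕ)) (n + (Fintype.card κ - 1 : ℕ)) (cub g) ≅
      T.H i n (aff k (MvPolynomial (Fin M) k ⧸ Ideal.span (Set.range g))) ⊞
        T.H (i + 1 - 2 * M) (n - M) (aff k k)) := by
  obtain ⟨p⟩ := exists_pt g l x hx
  obtain ⟨s, -⟩ := exists_section g p
  have hop : IsOpenImmersion (cmpMap g).left := (triple_zer g).opened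
  obtain ⟨s0, h0⟩ := T.exists_split (cmpMap g) hop (s ≫ bunMap g) i n
  obtain ⟨s1, h1⟩ := T.exists_split (cmpMap g) hop (s ≫ bunMap g) (i + 1) n
  obtain ⟨r, d, x1, x2, x3⟩ := T.localization (zerMap g) (cmpMap g) (ft_aff True) (triple_zer g) n
  obtain ⟨e1⟩ := split_iso (x1 i) (x2 i) (x3 i) s0 h0 s1 h1
  obtain ⟨e2⟩ := T.bundle _ (i + 1) n (bunMap g) (ft_cmp g True) (ft_bun g True)
    (isAffineBundle_bunMap g)
  obtain ⟨e3⟩ := T.iso (i + 1 + 2 * (Fintype.card κ - 1 : ℕ)) (n + (Fintype.card κ - 1 : ℕ))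
    (ft_cub g True) (cubIso g)
  obtain ⟨e4⟩ := T.space M (i + 1) n
  exact ⟨e3 ≪≫ e2 ≪≫ e1 ≪≫ biprod.mapIso (Iso.refl _) e4⟩

end CompactTheory

/-- **The formula for an arbitrary scheme.** -/
theorem compact_formula (k : Type) [Field k] (X : Sch k) (hX : InJ True X) :
    ∃ N m₀ : ℕ, ∀ m : ℕ, m₀ ≤ m → ∃ (r : ℕ) (g : Fin (r + 1) → MvPolynomial (Fin (m + N)) k),
      (∀ l, (g l).totalDegree ≤ 2) ∧
      ∀ (𝒜 : Type 1) [Category.{0} 𝒜] [Abelian 𝒜] (T : CompactTheory k 𝒜) (i n : ℤ),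
        Nonempty (T.H (i + 1 + 2 * N + 2 * r) (n + N + r) (cub g) ≅
          T.H i n X ⊞ T.H (i + 1 - 2 * m) (n - m) (aff k k)) := by
  obtain ⟨hX, N, B, _, _, _, π, hπ⟩ := hX
  obtain ⟨n₀, hn⟩ := exists_quadratic_fin k B
  refine ⟨N, n₀, fun m hm => ?_⟩
  obtain ⟨r, g, ⟨l, x, hx⟩, hg, ⟨e⟩⟩ := hn (m + N) (by omega)
  refine ⟨r, g, hg, fun 𝒜 _ _ T i n => ?_⟩
  obtain ⟨e1⟩ := T.formula g l x hx (i + 2 * N) (n + N)
  obtain ⟨e2⟩ := T.bundle N i n π hX (ft_aff True) hπ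
  obtain ⟨e3⟩ := T.iso (i + 2 * N) (n + N) (ft_aff True) (affIso e).symm
  rw [Fintype.card_fin, Nat.add_sub_cancel] at e1
  have a1 : i + 2 * (N : ℤ) + 1 + 2 * (r : ℤ) = i + 1 + 2 * N + 2 * r := by ring
  have a2 : i + 2 * (N : ℤ) + 1 - 2 * ((m + N : ℕ) : ℤ) = i + 1 - 2 * m := by
    push_cast
    ring
  have a3 : n + (N : ℤ) - ((m + N : ℕ) : ℤ) = n - m := by
    push_cast
    ring
  rw [a1, a2, a3] at e1
  exact ⟨e1 ≪≫ biprod.mapIso (e3 ≪≫ e2) (Iso.refl _)⟩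

end Pool.Agent.E8helper3.CH
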