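import Mathlib

/-!
# Cycle class data

An abelian group `M` (a rational motivic group), `ℚ_ℓ`-vector spaces `E ℓ` with a Frobenius (the
`ℓ`-adic groups) and the cycle class maps `M → E ℓ` into the invariants.
-/

set_option autoImplicit false

open scoped TensorProduct

namespace Pool.Agent.E8helper3.CH

/-- A cycle class datum: an abelian group `M`, vector spaces `E k` over `ℚ_ℓ`, `ℓ = p k`, with
endomorphisms `fr k`, and homomorphisms `cl k : M → E k` whose values are fixed by `fr k`. -/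
structure Datum (ι : Type) (p : ι → ℕ) [∀ k, Fact (p k).Prime] where
  /-- the abelian group -/
  M : Type
  /-- the vector spaces -/
  E : ι → Type
  /-- the structure of `M` -/
  gM : AddCommGroup M
  /-- the structure of `E k` -/
  gE : ∀ k, AddCommGroup (E k)
  /-- the structure of `E k` -/
  mE : ∀ k, Module ℚ_[p k] (E k)
  /-- the Frobenius -/
  fr : ∀ k, E k →ₗ[ℚ_[p k]] E k
  /-- the cycle class map -/
  cl : ∀ k, M →+ E k
  fix : ∀ (k : ι) (x : M), fr k (cl k x) = cl k x

namespace Datum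

variable {ι : Type} {p : ι → ℕ} [∀ k, Fact (p k).Prime]

attribute [instance] gM gE mE

/-- morphisms of data -/
structure Hom (A B : Datum ι p) where
  /-- the map of the groups -/
  m : A.M →+ B.M
  /-- the maps of the vector spaces -/
  e : ∀ k, A.E k →ₗ[ℚ_[p k]] B.E k
  fr : ∀ (k : ι) (x : A.E k), e k (A.fr k x) = B.fr k (e k x)
  cl : ∀ (k : ι) (x : A.M), e k (A.cl k x) = B.cl k (m x)

/-- exactness of `A → B → C` at `B` -/
def Hom.Exact {A B C : Datum ι p} (f : Hom A B) (g : Hom B C) : Prop :=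
  Function.Exact f.m g.m ∧ ∀ k, Function.Exact (f.e k) (g.e k)

/-- `A` and `B` are isomorphic. -/
def Iso (A B : Datum ι p) : Prop :=
  ∃ f : Hom A B, Function.Bijective f.m ∧ ∀ k, Function.Bijective (f.e k)

/-- all groups of the datum vanish -/
def Zero (A : Datum ι p) : Prop := Subsingleton A.M ∧ ∀ k, Subsingleton (A.E k)

/-- The map `ℚ_ℓ ⊗ M → E` onto the invariants is surjective for all `ℓ`. -/
def Surj (A : Datum ι p) : Prop :=
  ∀ (k : ι) (x : A.E k), A.fr k x = x → x ∈ Submodule.span ℚ_[p k] (Set.range (A.cl k))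

/-- The map `ℚ_ℓ ⊗ M → E` -/
noncomputable def comp (A : Datum ι p) (k : ι) : ℚ_[p k] ⊗[ℤ] A.M →ₗ[ℚ_[p k]] A.E k :=
  (A.cl k).toIntLinearMap.liftBaseChange ℚ_[p k]

/-- The map `ℚ_ℓ ⊗ M → E` is injective for all `ℓ`. -/
def Inj (A : Datum ι p) : Prop := ∀ k, Function.Injective (A.comp k)

/-- The eigenvalue `1` of the Frobenius is semisimple for all `ℓ`. -/
def Semi (A : Datum ι p) : Prop :=
  ∀ (k : ι) (x : A.E k), A.fr k (A.fr k x - x) = A.fr k x - x → A.fr k x = x

/-- `Q` is invariant under isomorphisms -/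
def Invariant (Q : Datum ι p → Prop) : Prop := ∀ A B : Datum ι p, Iso A B → Q A → Q B

theorem Iso.refl (A : Datum ι p) : Iso A A :=
  ⟨⟨AddMonoidHom.id _, fun _ => LinearMap.id, fun _ _ => rfl, fun _ _ => rfl⟩,
    Function.bijective_id, fun _ => Function.bijective_id⟩

theorem Iso.symm {A B : Datum ι p} (h : Iso A B) : Iso B A := by
  obtain ⟨f, h1, h2⟩ := h
  let u : A.M ≃+ B.M := AddEquiv.ofBijective f.m h1
  let v : ∀ k, A.E k ≃ₗ[ℚ_[p k]] B.E k := fun k => LinearEquiv.ofBijective (f.e k) (h2 k)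
  refine ⟨⟨u.symm.toAddMonoidHom, fun k => (v k).symm.toLinearMap, ?_, ?_⟩, u.symm.bijective,
    fun k => (v k).symm.bijective⟩
  · intro k x
    apply (v k).injective
    change v k ((v k).symm _) = v k _
    rw [LinearEquiv.apply_symm_apply]
    have h3 := f.fr k ((v k).symm x)
    have h4 : f.e k ((v k).symm x) = x := (v k).apply_symm_apply x
    rw [h4] at h3
    exact h3.symm
  · intro k x
    apply (v k).injective
    change v k ((v k).symm _) = v k _
    rw [LinearEquiv.apply_symm_apply]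
    have h3 := f.cl k (u.symm x)
    have h4 : f.m (u.symm x) = x := u.apply_symm_apply x
    rw [h4] at h3
    exact h3.symm

theorem Iso.trans {A B C : Datum ι p} (h : Iso A B) (h' : Iso B C) : Iso A C := by
  obtain ⟨f, h1, h2⟩ := h
  obtain ⟨g, h3, h4⟩ := h'
  refine ⟨⟨g.m.comp f.m, fun k => (g.e k).comp (f.e k), ?_, ?_⟩, h3.comp h1,
    fun k => (h4 k).comp (h2 k)⟩
  · intro k x
    change g.e k (f.e k _) = C.fr k (g.e k (f.e k x))
    rw [f.fr, g.fr]
  · intro k x
    change g.e k (f.e k _) = C.cl k (g.m (f.m x))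
    rw [f.cl, g.cl]

theorem Iso.zero {A B : Datum ι p} (h : Iso A B) (hA : A.Zero) : B.Zero := by
  obtain ⟨f, h1, h2⟩ := h
  obtain ⟨h3, h4⟩ := hA
  exact ⟨h1.surjective.subsingleton, fun k => (h2 k).surjective.subsingleton⟩

/-- the boundary map of a long exact sequence -/
theorem iso_of_exact {X' U Z X : Datum ι p} (j : Hom X' U) (d : Hom U Z) (i : Hom Z X)
    (h1 : j.Exact d) (h2 : d.Exact i) (hX' : X'.Zero) (hX : X.Zero) : Iso U Z := by
  obtain ⟨a1, a2⟩ := hX'
  obtain ⟨b1, b2⟩ := hX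
  refine ⟨d, ⟨?_, ?_⟩, fun k => ⟨?_, ?_⟩⟩
  · rw [injective_iff_map_eq_zero]
    intro x hx
    obtain ⟨y, rfl⟩ := (h1.1 x).1 hx
    rw [Subsingleton.elim y 0, map_zero]
  · intro z
    exact (h2.1 z).1 (Subsingleton.elim _ _)
  · rw [injective_iff_map_eq_zero]
    intro x hx
    obtain ⟨y, rfl⟩ := (h1.2 k x).1 hx
    have := a2 k
    rw [Subsingleton.elim y 0, map_zero]
  · intro z
    have := b2 k
    exact (h2.2 k z).1 (Subsingleton.elim _ _)

theorem invariant_surj : Invariant (ι := ι) (p := p) Surj := by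
  rintro A B h hA k x hx
  obtain ⟨f, h1, h2⟩ := h
  obtain ⟨y, rfl⟩ := (h2 k).surjective x
  rw [← f.fr] at hx
  have h3 := hA k y ((h2 k).injective hx)
  have h4 : f.e k y ∈ Submodule.map (f.e k) (Submodule.span ℚ_[p k] (Set.range (A.cl k))) :=
    ⟨y, h3, rfl⟩
  rw [Submodule.map_span] at h4
  refine Submodule.span_mono ?_ h4
  rintro _ ⟨_, ⟨z, rfl⟩, rfl⟩
  exact ⟨f.m z, (f.cl k z).symm⟩

theorem invariant_semi : Invariant (ι := ι) (p := p) Semi := by
  rintro A B h hA k x hx
  obtain ⟨f, h1, h2⟩ := h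
  obtain ⟨y, rfl⟩ := (h2 k).surjective x
  rw [← f.fr, ← map_sub, ← f.fr] at hx
  rw [← f.fr, hA k y ((h2 k).injective hx)]

theorem comp_hom {A B : Datum ι p} (f : Hom A B) (k : ι) :
    (f.e k).comp (A.comp k) =
      (B.comp k).comp (LinearMap.baseChange ℚ_[p k] f.m.toIntLinearMap) := by
  apply TensorProduct.AlgebraTensorModule.ext
  intro a x
  change f.e k (A.comp k (a ⊗ₜ[ℤ] x)) = B.comp k (LinearMap.baseChange ℚ_[p k] _ (a ⊗ₜ[ℤ] x))
  rw [LinearMap.baseChange_tmul]
  unfold comp
  rw [LinearMap.liftBaseChange_tmul, LinearMap.liftBaseChange_tmul, map_smul]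
  congr 1
  exact f.cl k x

theorem invariant_inj : Invariant (ι := ι) (p := p) Inj := by
  rintro A B h hA k
  obtain ⟨f, h1, h2⟩ := h.symm
  have h3 := comp_hom f k
  have h4 : Function.Injective (LinearMap.baseChange ℚ_[p k] f.m.toIntLinearMap) := by
    let u : B.M ≃ₗ[ℤ] A.M := (AddEquiv.ofBijective f.m h1).toIntLinearEquiv
    have h5 : f.m.toIntLinearMap = u.toLinearMap := rfl
    rw [h5]
    exact (LinearEquiv.baseChange ℤ ℚ_[p k] _ _ u).injective
  have h6 : Function.Injective ((f.e k).comp (B.comp k)) := by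
    rw [h3]
    exact (hA k).comp h4
  exact Function.Injective.of_comp (f := f.e k) h6

/-- the direct sum of two data -/
noncomputable def prod (A B : Datum ι p) : Datum ι p where
  M := A.M × B.M
  E k := A.E k × B.E k
  gM := inferInstance
  gE _ := inferInstance
  mE _ := inferInstance
  fr k := (A.fr k).prodMap (B.fr k)
  cl k := (A.cl k).prodMap (B.cl k)
  fix k x := Prod.ext (A.fix k x.1) (B.fix k x.2)

/-- the inclusion of the first summand -/
noncomputable def inl (A B : Datum ι p) : Hom A (prod A B) where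
  m := AddMonoidHom.inl _ _
  e _ := LinearMap.inl _ _ _
  fr k x := Prod.ext rfl (map_zero (B.fr k)).symm
  cl k x := Prod.ext rfl (map_zero (B.cl k)).symm

/-- the projection onto the first summand -/
noncomputable def fst (A B : Datum ι p) : Hom (prod A B) A where
  m := AddMonoidHom.fst _ _
  e _ := LinearMap.fst _ _ _
  fr _ _ := rfl
  cl _ _ := rfl

/-- the exchange of the summands -/
theorem prod_comm (A B : Datum ι p) : Iso (prod A B) (prod B A) :=
  ⟨⟨(AddEquiv.prodComm : A.M × B.M ≃+ B.M × A.M).toAddMonoidHom,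
    fun k => (LinearEquiv.prodComm ℚ_[p k] (A.E k) (B.E k)).toLinearMap, fun _ _ => rfl,
    fun _ _ => rfl⟩, (AddEquiv.prodComm : A.M × B.M ≃+ B.M × A.M).bijective,
    fun k => (LinearEquiv.prodComm ℚ_[p k] (A.E k) (B.E k)).bijective⟩

theorem prod_iso {A A' B B' : Datum ι p} (h : Iso A A') (h' : Iso B B') :
    Iso (prod A B) (prod A' B') := by
  obtain ⟨f, h1, h2⟩ := h
  obtain ⟨g, h3, h4⟩ := h'
  refine ⟨⟨f.m.prodMap g.m, fun k => (f.e k).prodMap (g.e k), ?_, ?_⟩, ?_, ?_⟩
  · intro k x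
    exact Prod.ext (f.fr k x.1) (g.fr k x.2)
  · intro k x
    exact Prod.ext (f.cl k x.1) (g.cl k x.2)
  · exact h1.prodMap h3
  · exact fun k => (h2 k).prodMap (h4 k)

/-- `Q` is inherited by direct summands -/
def Summand (Q : Datum ι p → Prop) : Prop := ∀ A B : Datum ι p, Q (prod A B) → Q A

theorem summand_surj : Summand (ι := ι) (p := p) Surj := by
  intro A B h k x hx
  have h1 := h k (x, 0) (Prod.ext hx (map_zero (B.fr k)))
  have h2 : (LinearMap.fst ℚ_[p k] (A.E k) (B.E k)) (x, 0) ∈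
      Submodule.map (LinearMap.fst ℚ_[p k] (A.E k) (B.E k))
        (Submodule.span ℚ_[p k] (Set.range ((prod A B).cl k))) := ⟨_, h1, rfl⟩
  rw [Submodule.map_span] at h2
  refine Submodule.span_mono ?_ h2
  rintro _ ⟨_, ⟨z, rfl⟩, rfl⟩
  exact ⟨z.1, rfl⟩

theorem summand_semi : Summand (ι := ι) (p := p) Semi := by
  intro A B h k x hx
  have h0 : B.fr k (B.fr k 0 - 0) = B.fr k 0 - 0 := by rw [map_zero, sub_zero, map_zero]
  have h1 := h k (x, 0) (Prod.ext hx h0)
  exact congrArg Prod.fst h1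

theorem summand_inj : Summand (ι := ι) (p := p) Inj := by
  intro A B h k
  have h3 := comp_hom (inl A B) k
  have h4 : Function.Injective (LinearMap.baseChange ℚ_[p k] (inl A B).m.toIntLinearMap) := by
    have h5 : (LinearMap.baseChange ℚ_[p k] (fst A B).m.toIntLinearMap).comp
        (LinearMap.baseChange ℚ_[p k] (inl A B).m.toIntLinearMap) = LinearMap.id := by
      rw [← LinearMap.baseChange_comp]
      have h6 : (fst A B).m.toIntLinearMap ∘ₗ (inl A B).m.toIntLinearMap = LinearMap.id := rfl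
      rw [h6, LinearMap.baseChange_id]
    exact Function.LeftInverse.injective (g := LinearMap.baseChange ℚ_[p k]
      (fst A B).m.toIntLinearMap) fun x => congrArg (fun u => u x) h5
  have h6 : Function.Injective (((inl A B).e k).comp (A.comp k)) := by
    rw [h3]
    exact (h k).comp h4
  exact Function.Injective.of_comp (f := (inl A B).e k) h6

end Datum

end Pool.Agent.E8helper3.CH
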