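import Pool.Agent.E8helper3.CH.Alg

/-!
# The transfer from all varieties to the hypersurfaces `∑ yₖ gₖ(x) = 1`
-/

set_option autoImplicit false

open CategoryTheory CategoryTheory.Limits AlgebraicGeometry MvPolynomial
open Pool.Agent.R904.CU Pool.Agent.Y116.UV

namespace Pool.Agent.E8helper3.CH

/-- `X` is of finite type over `R` and carries an affine bundle whose total space is affine. -/
def InJ {R : Type} [CommRing R] (sep : Prop) (X : Sch R) : Prop :=
  FT sep X ∧ ∃ (N : ℕ) (B : Type) (_ : CommRing B) (_ : Algebra R B) (_ : Algebra.FiniteType R B)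
    (π : aff R B ⟶ X), IsAffineBundle N π.left

/-- The formal properties of the relation `S X a b Y c d` (the theory in the bidegree `(a, b)` of `X`
is isomorphic to the theory in the bidegree `(c, d)` of `Y`) and of the property `T X a b` (the theory
in the bidegree `(a, b)` of `X` vanishes). -/
structure Tr {R : Type} [CommRing R] (sep : Prop) (S : Sch R → ℤ → ℤ → Sch R → ℤ → ℤ → Prop)
    (T : Sch R → ℤ → ℤ → Prop) : Prop where
  symm : ∀ {X : Sch R} {a b : ℤ} {Y : Sch R} {c d : ℤ}, S X a b Y c d → S Y c d X a b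
  trans : ∀ {X : Sch R} {a b : ℤ} {Y : Sch R} {c d : ℤ} {Z : Sch R} {e f : ℤ}, S X a b Y c d →
    S Y c d Z e f → S X a b Z e f
  triv : ∀ {X : Sch R} {a b : ℤ} {Y : Sch R} {c d : ℤ}, S X a b Y c d → T X a b → T Y c d
  iso : ∀ {X Y : Sch R} (a b : ℤ), FT sep X → FT sep Y → Nonempty (X ≅ Y) → S X a b Y a b
  loc : ∀ {Z X U : Sch R} (i : Z ⟶ X) (j : U ⟶ X) (a b : ℤ), FT sep X → IsTriple i j →
    T X a b → T X (a + 1) b → S U (a + 1) b Z a b
  bundle : ∀ (N : ℕ) {E X : Sch R} (π : E ⟶ X) (a b : ℤ), FT sep X → FT sep E →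
    IsAffineBundle N π.left → S X a b E (a + 2 * N) (b + N)

section

variable {R : Type} [CommRing R] {sep : Prop} {S : Sch R → ℤ → ℤ → Sch R → ℤ → ℤ → Prop}
  {T : Sch R → ℤ → ℤ → Prop} (h : Tr sep S T)

include h

theorem triv_space (n : ℕ) (a b : ℤ) (h0 : T (aff R R) (a - 2 * n) (b - n)) :
    T (aff R (MvPolynomial (Fin n) R)) a b := by
  have h1 := h.bundle _ (spMap R (Fin n)) (a - 2 * n) (b - n) (ft_aff sep) (ft_aff sep)
    (isAffineBundle_spMap R (Fin n))
  rw [Fintype.card_fin, sub_add_cancel, sub_add_cancel] at h1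
  exact h.triv h1 h0

/-- the complement of the common zeros and the hypersurface -/
theorem cmp_cub [IsNoetherianRing R] {n : ℕ} {κ : Type} [Fintype κ]
    (g : κ → MvPolynomial (Fin n) R) (a b : ℤ) :
    S (cmp g) a b (cub g) (a + 2 * (Fintype.card κ - 1 : ℕ)) (b + (Fintype.card κ - 1 : ℕ)) :=
  h.trans (h.bundle _ (bunMap g) a b (ft_cmp g sep) (ft_bun g sep) (isAffineBundle_bunMap g))
    (h.iso _ _ (ft_bun g sep) (ft_cub g sep) ⟨(cubIso g).symm⟩)

/-- the common zeros and the hypersurface -/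
theorem zer_cub [IsNoetherianRing R] {n : ℕ} {κ : Type} [Fintype κ]
    (g : κ → MvPolynomial (Fin n) R) (a b : ℤ) (h0 : T (aff R R) (a - 2 * n) (b - n))
    (h1 : T (aff R R) (a + 1 - 2 * n) (b - n)) :
    S (aff R (MvPolynomial (Fin n) R ⧸ Ideal.span (Set.range g))) a b (cub g)
      (a + 1 + 2 * (Fintype.card κ - 1 : ℕ)) (b + (Fintype.card κ - 1 : ℕ)) :=
  h.trans (h.symm (h.loc (zerMap g) (cmpMap g) a b (ft_aff sep) (triple_zer g)
    (triv_space h n a b h0) (triv_space h n (a + 1) b h1))) (cmp_cub h g (a + 1) b)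

/-- **The transfer.** -/
theorem transfer [IsNoetherianRing R] {X : Sch R} (hX : InJ sep X) :
    ∃ N m₀ : ℕ, ∀ m : ℕ, m₀ ≤ m → ∃ (κ : Type) (_ : Fintype κ)
      (g : κ → MvPolynomial (Fin (m + N)) R), Nonempty κ ∧ (∀ k, (g k).totalDegree ≤ 2) ∧
      (∀ a b : ℤ, S X a b (aff R (MvPolynomial (Fin (m + N)) R ⧸ Ideal.span (Set.range g)))
        (a + 2 * N) (b + N)) ∧
      ∀ a b : ℤ, T (aff R R) (a - 2 * m) (b - m) → T (aff R R) (a + 1 - 2 * m) (b - m) →
        S X a b (cub g) (a + 1 + 2 * N + 2 * (Fintype.card κ - 1 : ℕ))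
          (b + N + (Fintype.card κ - 1 : ℕ)) := by
  obtain ⟨hX, N, B, _, _, _, π, hπ⟩ := hX
  obtain ⟨n₀, hn⟩ := exists_quadratic_many R B
  refine ⟨N, n₀, fun m hm => ?_⟩
  obtain ⟨κ, _, g, hne, hg, ⟨e⟩⟩ := hn (m + N) (by omega)
  have h4 : ∀ a b : ℤ, S X a b
      (aff R (MvPolynomial (Fin (m + N)) R ⧸ Ideal.span (Set.range g))) (a + 2 * N) (b + N) :=
    fun a b => h.trans (h.bundle N π a b hX (ft_aff sep) hπ)
      (h.iso _ _ (ft_aff sep) (ft_aff sep) ⟨affIso e⟩)
  refine ⟨κ, inferInstance, g, hne, hg, h4, fun a b h1 h2 => ?_⟩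
  have h5 := zer_cub h g (a + 2 * N) (b + N)
    (by
      have e1 : a + 2 * (N : ℤ) - 2 * ((m + N : ℕ) : ℤ) = a - 2 * m := by
        push_cast
        ring
      have e2 : b + (N : ℤ) - ((m + N : ℕ) : ℤ) = b - m := by
        push_cast
        ring
      rw [e1, e2]
      exact h1)
    (by
      have e1 : a + 2 * (N : ℤ) + 1 - 2 * ((m + N : ℕ) : ℤ) = a + 1 - 2 * m := by
        push_cast
        ring
      have e2 : b + (N : ℤ) - ((m + N : ℕ) : ℤ) = b - m := by
        push_cast
        ring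
      rw [e1, e2]
      exact h2)
  have h6 := h.trans (h4 a b) h5
  have e3 : a + 1 + 2 * (N : ℤ) + 2 * ((Fintype.card κ - 1 : ℕ) : ℤ) =
      a + 2 * N + 1 + 2 * ((Fintype.card κ - 1 : ℕ) : ℤ) := by ring
  rw [e3]
  exact h6

end

/-- affine schemes of finite type are in the class -/
theorem inJ_aff {R : Type} [CommRing R] (sep : Prop) (A : Type) [CommRing A] [Algebra R A]
    [Algebra.FiniteType R A] : InJ sep (aff R A) := by
  refine ⟨ft_aff sep, 0, MvPolynomial (Fin 0) A, inferInstance, inferInstance, ?_,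
    affMap (IsScalarTower.toAlgHom R A (MvPolynomial (Fin 0) A)), ?_⟩
  · exact Algebra.FiniteType.trans (S := A) inferInstance inferInstance
  · have h := isAffineBundle_sp A (Fin 0)
    rw [Fintype.card_fin] at h
    exact h

section smooth

variable {R : Type} [CommRing R] {σ κ : Type} [Fintype κ] (g : κ → MvPolynomial σ R)

theorem aeval_bigPoly {B : Type} [CommRing B] [Algebra R B] (v : κ ⊕ σ → B) :
    aeval v (bigPoly g) = ∑ k, v (Sum.inl k) * aeval (fun s => v (Sum.inr s)) (g k) - 1 := by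
  unfold bigPoly
  rw [map_sub, map_one, map_sum]
  congr 1
  refine Finset.sum_congr rfl fun k _ => ?_
  rw [map_mul, aeval_X, aeval_rename]
  rfl

/-- The hypersurface `∑ yₖ gₖ(x) = 1` is smooth over `R`. -/
theorem cub_smooth [Finite σ] : Algebra.Smooth R (QRg g) where
  formallySmooth := by
    apply Algebra.FormallySmooth.of_comp_surjective
    intro B _ _ I hI f
    have hsur : Function.Surjective (Ideal.Quotient.mkₐ R I) := Ideal.Quotient.mkₐ_surjective R I
    choose v hv using fun s => hsur (f (Ideal.Quotient.mk _ (X s)))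
    have h1 : (Ideal.Quotient.mkₐ R I).comp (aeval v) =
        f.comp (Ideal.Quotient.mkₐ R (Ideal.span {bigPoly g})) := by
      apply MvPolynomial.algHom_ext
      intro s
      change Ideal.Quotient.mkₐ R I (aeval v (X s)) = _
      rw [aeval_X]
      exact hv s
    have h2 : Ideal.Quotient.mkₐ R I (aeval v (bigPoly g)) = 0 := by
      have h3 := congrArg (fun u : MvPolynomial (κ ⊕ σ) R →ₐ[R] B ⧸ I => u (bigPoly g)) h1
      change Ideal.Quotient.mkₐ R I (aeval v (bigPoly g)) =
        f (Ideal.Quotient.mk _ (bigPoly g)) at h3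
      rw [Ideal.Quotient.eq_zero_iff_mem.mpr (Ideal.mem_span_singleton_self _), map_zero] at h3
      exact h3
    let d : B := aeval v (bigPoly g)
    have h4 : d ∈ I := Ideal.Quotient.eq_zero_iff_mem.mp h2
    have h5 : d * d = 0 := by
      have : d * d ∈ I ^ 2 := by
        rw [pow_two]
        exact Ideal.mul_mem_mul h4 h4
      rw [hI] at this
      exact this
    let w : κ ⊕ σ → B := Sum.elim (fun i => (1 - d) * v (Sum.inl i)) fun s => v (Sum.inr s)
    have h6 : aeval w (bigPoly g) = 0 := by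
      have h7 : aeval w (bigPoly g) =
          (1 - d) * ∑ k, v (Sum.inl k) * aeval (fun s => v (Sum.inr s)) (g k) - 1 := by
        rw [aeval_bigPoly, Finset.mul_sum]
        congr 1
        refine Finset.sum_congr rfl fun k _ => ?_
        change (1 - d) * v (Sum.inl k) * aeval (fun s => v (Sum.inr s)) (g k) = _
        ring
      have h8 : ∑ k, v (Sum.inl k) * aeval (fun s => v (Sum.inr s)) (g k) = 1 + d := by
        change _ = 1 + aeval v (bigPoly g)
        rw [aeval_bigPoly]
        ring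
      rw [h7, h8]
      linear_combination -h5
    refine ⟨Ideal.Quotient.liftₐ _ (aeval w) ?_, ?_⟩
    · intro q hq
      have h9 : Ideal.span {bigPoly g} ≤
          RingHom.ker (aeval w : MvPolynomial (κ ⊕ σ) R →ₐ[R] B) := by
        rw [Ideal.span_le, Set.singleton_subset_iff]
        exact h6
      exact h9 hq
    · have hd : Ideal.Quotient.mkₐ R I d = 0 := h2
      apply Ideal.Quotient.algHom_ext
      apply MvPolynomial.algHom_ext
      rintro (i | s)
      · change Ideal.Quotient.mkₐ R I (aeval w (X (Sum.inl i))) =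
          f (Ideal.Quotient.mk _ (X (Sum.inl i)))
        rw [aeval_X]
        change Ideal.Quotient.mkₐ R I ((1 - d) * v (Sum.inl i)) = _
        rw [map_mul, map_sub, hd, map_one, sub_zero, one_mul]
        exact hv _
      · change Ideal.Quotient.mkₐ R I (aeval w (X (Sum.inr s))) =
          f (Ideal.Quotient.mk _ (X (Sum.inr s)))
        rw [aeval_X]
        exact hv _
  finitePresentation :=
    Algebra.FinitePresentation.quotient ⟨{bigPoly g}, by rw [Finset.coe_singleton]⟩

theorem smooth_cub [Finite σ] : Smooth (cub g).hom := by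
  change Smooth (Spec.map (CommRingCat.ofHom (algebraMap R (QRg g))))
  rw [HasRingHomProperty.Spec_iff (P := @Smooth)]
  exact RingHom.smooth_algebraMap.mpr (cub_smooth g)

end smooth

end Pool.Agent.E8helper3.CH
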