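import Pool.Agent.E8helper3.CH.Thy

/-!
# The hypersurfaces `∑ yₖ gₖ(x) = 0`
-/

set_option autoImplicit false

open CategoryTheory CategoryTheory.Limits AlgebraicGeometry MvPolynomial
open Pool.Agent.R904.CU Pool.Agent.Y116.UV

namespace Pool.Agent.E8helper3.CH

variable {ι : Type} {p : ι → ℕ} [∀ k, Fact (p k).Prime]

namespace Datum

/-- the group `M` vanishes, and the Frobenius has no invariants -/
def Null (A : Datum ι p) : Prop :=
  Subsingleton A.M ∧ ∀ (k : ι) (x : A.E k), A.fr k x = x → x = 0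

theorem surj_prod {A B : Datum ι p} (hB : B.Null) : (prod A B).Surj ↔ A.Surj := by
  refine ⟨summand_surj A B, fun h k => ?_⟩
  rintro ⟨x, y⟩ hx
  have h1 : A.fr k x = x := congrArg Prod.fst hx
  have h2 : B.fr k y = y := congrArg Prod.snd hx
  rw [hB.2 k y h2]
  have h3 := h k x h1
  have h4 : (LinearMap.inl ℚ_[p k] (A.E k) (B.E k)) x ∈
      Submodule.map (LinearMap.inl ℚ_[p k] (A.E k) (B.E k))
        (Submodule.span ℚ_[p k] (Set.range (A.cl k))) := ⟨_, h3, rfl⟩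
  rw [Submodule.map_span] at h4
  refine Submodule.span_mono ?_ h4
  rintro _ ⟨_, ⟨z, rfl⟩, rfl⟩
  exact ⟨(z, 0), Prod.ext rfl (map_zero (B.cl k))⟩

theorem semi_prod {A B : Datum ι p} (hB : B.Null) : (prod A B).Semi ↔ A.Semi := by
  refine ⟨summand_semi A B, fun h k => ?_⟩
  rintro ⟨x, y⟩ hx
  have h1 : A.fr k (A.fr k x - x) = A.fr k x - x := congrArg Prod.fst hx
  have h2 : B.fr k (B.fr k y - y) = B.fr k y - y := congrArg Prod.snd hx
  exact Prod.ext (h k x h1) (sub_eq_zero.mp (hB.2 k _ h2))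

theorem inj_prod {A B : Datum ι p} (hB : B.Null) : (prod A B).Inj ↔ A.Inj := by
  refine ⟨summand_inj A B, fun h k => ?_⟩
  rw [injective_iff_map_eq_zero]
  intro z hz
  have h0 := hB.1
  have h1 : Function.Surjective (LinearMap.baseChange ℚ_[p k] (inl A B).m.toIntLinearMap) := by
    have h2 : (LinearMap.baseChange ℚ_[p k] (inl A B).m.toIntLinearMap).comp
        (LinearMap.baseChange ℚ_[p k] (fst A B).m.toIntLinearMap) = LinearMap.id := by
      rw [← LinearMap.baseChange_comp]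
      have h6 : (inl A B).m.toIntLinearMap ∘ₗ (fst A B).m.toIntLinearMap = LinearMap.id := by
        ext x
        exact Prod.ext rfl (Subsingleton.elim _ _)
      rw [h6, LinearMap.baseChange_id]
    exact fun x => ⟨_, congrArg (fun u => u x) h2⟩
  obtain ⟨w, rfl⟩ := h1 z
  have h3 := congrArg (fun u => u w) (comp_hom (inl A B) k)
  change (inl A B).e k (A.comp k w) = (prod A B).comp k (LinearMap.baseChange ℚ_[p k] _ w) at h3
  rw [hz] at h3
  have h4 : A.comp k w = 0 := congrArg Prod.fst h3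
  rw [(injective_iff_map_eq_zero _).mp (h k) w h4, map_zero]

/-- the cycle class maps are bijective onto the invariants -/
def Bij (A : Datum ι p) : Prop := A.Surj ∧ A.Inj

theorem invariant_bij : Invariant (ι := ι) (p := p) Bij :=
  fun A B h hA => ⟨invariant_surj A B h hA.1, invariant_inj A B h hA.2⟩

theorem summand_bij : Summand (ι := ι) (p := p) Bij :=
  fun A B h => ⟨summand_surj A B h.1, summand_inj A B h.2⟩

end Datum

variable {F : Type} [Field F] (𝒯 : Thy F ι p)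

/-- The property `Q` is true for the groups in the bidegrees `(2b + r, b)` of all hypersurfaces
`∑ yₖ gₖ(x) = 0`, `deg gₖ ≤ 2`. -/
def Thy.SngR (Q : Datum ι p → Prop) (r : ℤ) : Prop :=
  ∀ (n : ℕ) (κ : Type) [Fintype κ] (g : κ → MvPolynomial (Fin n) F),
    (∀ k, (g k).totalDegree ≤ 2) → ∀ b : ℤ, Q (𝒯.D (sng g) (2 * b + r) b)

theorem Thy.transfer_sng {X : Sch F} (hX : InJ True X) :
    ∃ N m₀ : ℕ, ∀ m : ℕ, m₀ ≤ m → ∃ (κ : Type) (_ : Fintype κ)
      (g : κ → MvPolynomial (Fin (m + N)) F), (∀ k, (g k).totalDegree ≤ 2) ∧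
      (∀ a b : ℤ, a ≠ 2 * m → a + 1 ≠ 2 * m → a + 2 ≠ 2 * m →
        Datum.Iso (𝒯.D (sng g) (a + 2 * (N + Fintype.card κ)) (b + (N + Fintype.card κ)))
          (Datum.prod (𝒯.D X a b) (𝒯.D X (a + 1) (b + 1)))) ∧
      ∀ i j : ℤ, i ≠ 0 → i ≠ -1 → Datum.Iso (𝒯.coh g i j) (𝒯.D X (2 * m - 1 - i) (m - j)) := by
  obtain ⟨N, m₀, h⟩ := 𝒯.transfer hX
  refine ⟨N, m₀, fun m hm => ?_⟩
  obtain ⟨κ, _, g, hne, hg, hz, hs⟩ := h m hm
  refine ⟨κ, inferInstance, g, hg, fun a b h0 h1 h2 => ?_, hs⟩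
  have h3 := 𝒯.sing g (a + 2 * N) (b + N) (by push_cast; omega) (by push_cast; omega)
    (by push_cast; omega)
  have h4 := (hz (a + 1) (b + 1)).symm
  rw [show a + 1 + 2 * (N : ℤ) = a + 2 * N + 1 by ring,
    show b + 1 + (N : ℤ) = b + N + 1 by ring] at h4
  rw [show a + 2 * ((N : ℤ) + Fintype.card κ) = a + 2 * N + 2 * Fintype.card κ by ring,
    show b + ((N : ℤ) + Fintype.card κ) = b + N + Fintype.card κ by ring]
  exact h3.trans (Datum.prod_iso (hz a b).symm h4)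

theorem Thy.sng_iff {Q : Datum ι p → Prop} (hQ : Datum.Invariant Q) (hs : Datum.Summand Q)
    (r : ℤ) : 𝒯.AllR Q r ↔ 𝒯.SngR Q r := by
  refine ⟨fun h n κ _ g _ b => h (sng g) (inJ_aff True _) b, fun h X hX b => ?_⟩
  obtain ⟨N, m₀, ht⟩ := 𝒯.transfer_sng hX
  obtain ⟨m, hm1, hm2⟩ : ∃ m : ℕ, m₀ ≤ m ∧ 2 * b + r + 2 < 2 * (m : ℤ) :=
    ⟨m₀ + ((2 * b + r).toNat + 2), by omega, by omega⟩
  obtain ⟨κ, _, g, hg, h1, -⟩ := ht m hm1
  have h2 := h1 (2 * b + r) b (by omega) (by omega) (by omega)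
  have h3 := h _ κ g hg (b + (N + Fintype.card κ))
  rw [show 2 * (b + ((N : ℤ) + Fintype.card κ)) + r = 2 * b + r + 2 * (N + Fintype.card κ) by
    ring] at h3
  exact hs _ _ (hQ _ _ h2 h3)

/-- the individual varieties -/
theorem Thy.sng_one (hw : ∀ X : Sch F, FT True X → ∀ a b : ℤ, a < 2 * b → (𝒯.D X a b).Null)
    {X : Sch F} (hX : InJ True X) : ∃ N m₀ : ℕ, ∀ m : ℕ, m₀ ≤ m → ∃ (κ : Type) (_ : Fintype κ)
      (g : κ → MvPolynomial (Fin (m + N)) F), (∀ k, (g k).totalDegree ≤ 2) ∧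
      ∀ i : ℤ, i < m - 1 → ((𝒯.D (sng g) (2 * (i + (N + Fintype.card κ))) (i + (N +
        Fintype.card κ))).Surj ↔ (𝒯.D X (2 * i) i).Surj) ∧
        ((𝒯.D (sng g) (2 * (i + (N + Fintype.card κ))) (i + (N +
        Fintype.card κ))).Inj ↔ (𝒯.D X (2 * i) i).Inj) ∧
        ((𝒯.D (sng g) (2 * (i + (N + Fintype.card κ))) (i + (N +
        Fintype.card κ))).Semi ↔ (𝒯.D X (2 * i) i).Semi) := by
  obtain ⟨N, m₀, ht⟩ := 𝒯.transfer_sng hX
  refine ⟨N, m₀, fun m hm => ?_⟩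
  obtain ⟨κ, _, g, hg, h1, -⟩ := ht m hm
  refine ⟨κ, inferInstance, g, hg, fun i hi => ?_⟩
  have h2 := h1 (2 * i) i (by omega) (by omega) (by omega)
  rw [show 2 * i + 2 * ((N : ℤ) + Fintype.card κ) = 2 * (i + (N + Fintype.card κ)) by ring] at h2
  have h3 := hw X hX.1 (2 * i + 1) (i + 1) (by omega)
  refine ⟨?_, ?_, ?_⟩
  · rw [← Datum.surj_prod (A := 𝒯.D X (2 * i) i) h3]
    exact ⟨Datum.invariant_surj _ _ h2, Datum.invariant_surj _ _ h2.symm⟩
  · rw [← Datum.inj_prod (A := 𝒯.D X (2 * i) i) h3]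
    exact ⟨Datum.invariant_inj _ _ h2, Datum.invariant_inj _ _ h2.symm⟩
  · rw [← Datum.semi_prod (A := 𝒯.D X (2 * i) i) h3]
    exact ⟨Datum.invariant_semi _ _ h2, Datum.invariant_semi _ _ h2.symm⟩

end Pool.Agent.E8helper3.CH
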