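import Pool.Agent.E8helper3.CH.Engine

/-!
# Quadratic presentations such that the hypersurface has a rational point
-/

set_option autoImplicit false

open CategoryTheory CategoryTheory.Limits AlgebraicGeometry MvPolynomial
open Pool.Agent.R904.CU Pool.Agent.Y116.UV

namespace Pool.Agent.E8helper3.CH

/-- A finitely generated algebra over a noetherian ring has presentations by quadratic polynomials
in arbitrarily many variables, one of which takes the value `1` at some point. -/
theorem exists_quadratic_pt (R : Type) [CommRing R] [IsNoetherianRing R] (B : Type) [CommRing B]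
    [Algebra R B] [Algebra.FiniteType R B] : ∃ n₀ : ℕ, ∀ n : ℕ, n₀ ≤ n →
    ∃ (κ : Type) (_ : Fintype κ) (g : κ → MvPolynomial (Fin n) R),
      (∃ (k : κ) (x : Fin n → R), aeval x (g k) = 1) ∧
      (∀ k, (g k).totalDegree ≤ 2) ∧
      Nonempty ((MvPolynomial (Fin n) R ⧸ Ideal.span (Set.range g)) ≃ₐ[R] B) := by
  obtain ⟨σ, κ, _, _, g, hg, ⟨e⟩⟩ := exists_quadratic R B
  refine ⟨Fintype.card σ + 1, fun n hn => ?_⟩
  obtain ⟨r, rfl⟩ := Nat.exists_eq_add_of_le hn
  have hc : Fintype.card (σ ⊕ Fin (r + 1)) = Fintype.card σ + 1 + r := by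
    rw [Fintype.card_sum, Fintype.card_fin]
    ring
  let u : σ ⊕ Fin (r + 1) ≃ Fin (Fintype.card σ + 1 + r) := Fintype.equivFinOfCardEq hc
  let g' : κ ⊕ Fin (r + 1) → MvPolynomial (Fin (Fintype.card σ + 1 + r)) R := fun k =>
    rename u (more g (Fin (r + 1)) k)
  refine ⟨κ ⊕ Fin (r + 1), inferInstance, g', ⟨Sum.inr 0, fun _ => 1, ?_⟩, ?_, ⟨?_⟩⟩
  · change aeval _ (rename u (X (Sum.inr 0))) = 1
    rw [rename_X, aeval_X]
  · intro k
    exact (totalDegree_rename_le _ _).trans (totalDegree_more g (Fin (r + 1)) hg k)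
  refine AlgEquiv.trans ?_ ((moreE g (Fin (r + 1))).trans e)
  refine (Ideal.quotientEquivAlg _ _ (renameEquiv R u) ?_).symm
  rw [Ideal.map_span, ← Set.range_comp]
  rfl

/-- The same with numbered polynomials. -/
theorem exists_quadratic_fin (R : Type) [CommRing R] [IsNoetherianRing R] (B : Type) [CommRing B]
    [Algebra R B] [Algebra.FiniteType R B] : ∃ n₀ : ℕ, ∀ n : ℕ, n₀ ≤ n →
    ∃ (r : ℕ) (g : Fin (r + 1) → MvPolynomial (Fin n) R),
      (∃ (k : Fin (r + 1)) (x : Fin n → R), aeval x (g k) = 1) ∧
      (∀ k, (g k).totalDegree ≤ 2) ∧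
      Nonempty ((MvPolynomial (Fin n) R ⧸ Ideal.span (Set.range g)) ≃ₐ[R] B) := by
  obtain ⟨n₀, hn⟩ := exists_quadratic_pt R B
  refine ⟨n₀, fun n h => ?_⟩
  obtain ⟨κ, _, g, ⟨k, x, hx⟩, hg, ⟨e⟩⟩ := hn n h
  have hc : 0 < Fintype.card κ := Fintype.card_pos_iff.mpr ⟨k⟩
  obtain ⟨r, hr⟩ := Nat.exists_eq_succ_of_ne_zero hc.ne'
  let u : κ ≃ Fin (r + 1) := Fintype.equivFinOfCardEq hr
  refine ⟨r, fun l => g (u.symm l), ⟨u k, x, ?_⟩, fun l => hg _, ⟨?_⟩⟩
  · change aeval x (g (u.symm (u k))) = 1
    rw [u.symm_apply_apply]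
    exact hx
  · refine AlgEquiv.trans (Ideal.quotientEquivAlgOfEq R ?_) e
    congr 1
    exact u.symm.surjective.range_comp g

section

variable {R : Type} [CommRing R] {σ κ : Type} [Fintype κ] (g : κ → MvPolynomial σ R)

/-- the rational point of the hypersurface -/
theorem exists_pt (k : κ) (x : σ → R) (hx : aeval x (g k) = 1) :
    Nonempty (QRg g →ₐ[R] R) := by
  classical
  refine ⟨Ideal.Quotient.liftₐ _ (aeval (Sum.elim (fun i => if i = k then (1 : R) else 0) x)) ?_⟩
  intro a ha
  have h : Ideal.span {bigPoly g} ≤ RingHom.ker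
      (aeval (Sum.elim (fun i => if i = k then (1 : R) else 0) x) :
        MvPolynomial (κ ⊕ σ) R →ₐ[R] R) := by
    rw [Ideal.span_le, Set.singleton_subset_iff]
    change aeval _ (bigPoly g) = 0
    rw [aeval_bigPoly]
    have h1 : ∀ i : κ, (Sum.elim (fun i => if i = k then (1 : R) else 0) x : κ ⊕ σ → R)
        (Sum.inl i) * aeval (fun s => (Sum.elim (fun i => if i = k then (1 : R) else 0) x :
          κ ⊕ σ → R) (Sum.inr s)) (g i) = if i = k then 1 else 0 := by
      intro i
      change (if i = k then (1 : R) else 0) * aeval x (g i) = _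
      by_cases hi : i = k
      · subst hi
        rw [if_pos rfl, hx, one_mul]
      · rw [if_neg hi, zero_mul]
    rw [Finset.sum_congr rfl fun i _ => h1 i, Finset.sum_ite_eq' Finset.univ k fun _ => (1 : R),
      if_pos (Finset.mem_univ k), sub_self]
  exact h ha

end

section ring1

variable {A : Type} [CommRing A] {κ : Type} [Fintype κ] (g : κ → A)

theorem aeval_poly {B : Type} [CommRing B] [Algebra A B] (v : κ → B) :
    aeval v (poly g) = ∑ k, v k * algebraMap A B (g k) - 1 := by
  unfold poly
  rw [map_sub, map_one, map_sum]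
  congr 1
  refine Finset.sum_congr rfl fun k _ => ?_
  rw [map_mul, aeval_X, aeval_C]

/-- The bundle `∑ yₖ gₖ = 1` is smooth over `A`. -/
theorem ring1_smooth : Algebra.Smooth A (Ring1 g) where
  formallySmooth := by
    apply Algebra.FormallySmooth.of_comp_surjective
    intro B _ _ I hI f
    have hsur : Function.Surjective (Ideal.Quotient.mkₐ A I) := Ideal.Quotient.mkₐ_surjective A I
    choose v hv using fun s => hsur (f (Ideal.Quotient.mk _ (X s)))
    have h1 : (Ideal.Quotient.mkₐ A I).comp (aeval v) =
        f.comp (Ideal.Quotient.mkₐ A (Ideal.span {poly g})) := by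
      apply MvPolynomial.algHom_ext
      intro s
      change Ideal.Quotient.mkₐ A I (aeval v (X s)) = _
      rw [aeval_X]
      exact hv s
    have h2 : Ideal.Quotient.mkₐ A I (aeval v (poly g)) = 0 := by
      have h3 := congrArg (fun u : MvPolynomial κ A →ₐ[A] B ⧸ I => u (poly g)) h1
      change Ideal.Quotient.mkₐ A I (aeval v (poly g)) =
        f (Ideal.Quotient.mk _ (poly g)) at h3
      rw [Ideal.Quotient.eq_zero_iff_mem.mpr (Ideal.mem_span_singleton_self _), map_zero] at h3
      exact h3
    let d : B := aeval v (poly g)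
    have h4 : d ∈ I := Ideal.Quotient.eq_zero_iff_mem.mp h2
    have h5 : d * d = 0 := by
      have : d * d ∈ I ^ 2 := by
        rw [pow_two]
        exact Ideal.mul_mem_mul h4 h4
      rw [hI] at this
      exact this
    let w : κ → B := fun i => (1 - d) * v i
    have h6 : aeval w (poly g) = 0 := by
      have h7 : aeval w (poly g) = (1 - d) * ∑ k, v k * algebraMap A B (g k) - 1 := by
        rw [aeval_poly, Finset.mul_sum]
        congr 1
        refine Finset.sum_congr rfl fun k _ => ?_
        change (1 - d) * v k * _ = _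
        ring
      have h8 : ∑ k, v k * algebraMap A B (g k) = 1 + d := by
        change _ = 1 + aeval v (poly g)
        rw [aeval_poly]
        ring
      rw [h7, h8]
      linear_combination -h5
    refine ⟨Ideal.Quotient.liftₐ _ (aeval w) ?_, ?_⟩
    · intro q hq
      have h9 : Ideal.span {poly g} ≤
          RingHom.ker (aeval w : MvPolynomial κ A →ₐ[A] B) := by
        rw [Ideal.span_le, Set.singleton_subset_iff]
        exact h6
      exact h9 hq
    · have hd : Ideal.Quotient.mkₐ A I d = 0 := h2
      apply Ideal.Quotient.algHom_ext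
      apply MvPolynomial.algHom_ext
      intro i
      change Ideal.Quotient.mkₐ A I (aeval w (X i)) = f (Ideal.Quotient.mk _ (X i))
      rw [aeval_X]
      change Ideal.Quotient.mkₐ A I ((1 - d) * v i) = _
      rw [map_mul, map_sub, hd, map_one, sub_zero, one_mul]
      exact hv _
  finitePresentation :=
    Algebra.FinitePresentation.quotient ⟨{poly g}, by rw [Finset.coe_singleton]⟩

end ring1

section maps

variable {R : Type} [CommRing R] {σ κ : Type} [Fintype κ] (g : κ → MvPolynomial σ R)

/-- The bundle over the complement of the common zeros is smooth. -/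
theorem smooth_bunMap : Smooth (bunMap g).left := by
  have h1 : Smooth ((bunMap g).left ≫ (cmpMap g).left) := by
    have h2 : (bunMap g).left ≫ (cmpMap g).left =
        Spec.map (CommRingCat.ofHom (algebraMap (MvPolynomial σ R) (Ring1 g))) := by
      change proj g ≫ (openU g).ι = _
      rw [proj_ι]
      rfl
    rw [h2]
    change Smooth (Spec.map (CommRingCat.ofHom (algebraMap (MvPolynomial σ R) (Ring1 g))) :
      Spec (.of (Ring1 g)) ⟶ Spec (.of (MvPolynomial σ R)))
    rw [HasRingHomProperty.Spec_iff (P := @Smooth)]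
    exact RingHom.smooth_algebraMap.mpr (ring1_smooth g)
  have h3 : IsOpenImmersion (cmpMap g).left := (triple_zer g).opened
  have h4 : Mono (cmpMap g).left := inferInstance
  exact (MorphismProperty.IsStableUnderBaseChange.hasOfPostcompProperty_monomorphisms
    (P := @Smooth.{0})).of_postcomp _ _ h4 h1

theorem smooth_mv (R : Type) [CommRing R] (σ : Type) [Finite σ] :
    Algebra.Smooth R (MvPolynomial σ R) where
  formallySmooth := inferInstance
  finitePresentation := inferInstance

theorem smooth_spMap [Finite σ] : Smooth (spMap R σ).left := by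
  change Smooth (Spec.map (CommRingCat.ofHom (algebraMap R (MvPolynomial σ R))))
  rw [HasRingHomProperty.Spec_iff (P := @Smooth)]
  exact RingHom.smooth_algebraMap.mpr (smooth_mv R σ)

theorem smooth_cmpMap : Smooth (cmpMap g).left := by
  have h3 : IsOpenImmersion (cmpMap g).left := (triple_zer g).opened
  infer_instance

/-- the structure morphism of the bundle -/
theorem comp_maps : bunMap g ≫ cmpMap g ≫ spMap R σ = affMap (Algebra.ofId R (Ring1 g)) := by
  ext1
  change proj g ≫ (openU g).ι ≫
      Spec.map (CommRingCat.ofHom (algebraMap R (MvPolynomial σ R))) =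
      Spec.map (CommRingCat.ofHom (algebraMap R (Ring1 g)))
  rw [← Category.assoc, proj_ι]
  unfold proj0
  rw [← Spec.map_comp, ← CommRingCat.ofHom_comp]

/-- a point of the hypersurface gives a section -/
theorem exists_section (p : QRg g →ₐ[R] R) : ∃ s : aff R R ⟶ aff R (Ring1 g),
    s ≫ affMap (Algebra.ofId R (Ring1 g)) = 𝟙 _ := by
  refine ⟨affMap p ≫ (cubIso g).hom, ?_⟩
  unfold cubIso
  change (affMap p ≫ affMap _) ≫ affMap _ = _
  rw [← affMap_comp, ← affMap_comp, ← affMap_id]
  congr 1
  exact Subsingleton.elim _ _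

theorem smooth_ring1 [Finite σ] : Smooth (aff R (Ring1 g)).hom := by
  have h : Algebra.Smooth R (Ring1 g) := by
    have h1 : Algebra.Smooth (MvPolynomial σ R) (Ring1 g) := ring1_smooth g
    have h2 : Algebra.Smooth R (MvPolynomial σ R) := smooth_mv R σ
    exact Algebra.Smooth.comp R (MvPolynomial σ R) (Ring1 g)
  change Smooth (Spec.map (CommRingCat.ofHom (algebraMap R (Ring1 g))))
  rw [HasRingHomProperty.Spec_iff (P := @Smooth)]
  exact RingHom.smooth_algebraMap.mpr h

end maps

end Pool.Agent.E8helper3.CH
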