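import Pool.Agent.E8helper3.CH.Vt
import Pool.Agent.E8helper3.CH.Datum

/-!
# Rational motivic Borel-Moore homology of varieties over a finite field with its cycle class maps
-/

set_option autoImplicit false

open CategoryTheory CategoryTheory.Limits AlgebraicGeometry MvPolynomial
open Pool.Agent.R904.CU Pool.Agent.Y116.UV

namespace Pool.Agent.E8helper3.CH

variable {ι : Type} {p : ι → ℕ} [∀ k, Fact (p k).Prime]

/-- The long exact sequence `Z_{a,b} → X_{a,b} → U_{a,b} → Z_{a-1,b} → X_{a-1,b}`. -/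
def LocSeq (Z X U : ℤ → ℤ → Datum ι p) : Prop :=
  ∃ (i : ∀ a b, Datum.Hom (Z a b) (X a b)) (j : ∀ a b, Datum.Hom (X a b) (U a b))
    (d : ∀ a b, Datum.Hom (U (a + 1) b) (Z a b)), ∀ a b,
    (i a b).Exact (j a b) ∧ (j (a + 1) b).Exact (d a b) ∧ (d a b).Exact (i a b)

/-- The standard properties of the groups `M_a(X, b) = CH_b(X, a - 2b) ⊗ ℚ` and
`E_a(X, b) = H_a(X̄, ℚ_ℓ(b))` of separated schemes of finite type over the finite field `F`, with
the Frobenius and the cycle class maps. -/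
structure Thy (F : Type) [Field F] (ι : Type) (p : ι → ℕ) [∀ k, Fact (p k).Prime] where
  /-- the groups in the bidegree `(a, b)` -/
  D : Sch F → ℤ → ℤ → Datum ι p
  iso : ∀ {X Y : Sch F} (a b : ℤ), FT True X → FT True Y → Nonempty (X ≅ Y) →
    Datum.Iso (D X a b) (D Y a b)
  /-- the localization sequence of a closed subscheme and its complement -/
  localization : ∀ {Z X U : Sch F} (i : Z ⟶ X) (j : U ⟶ X), FT True X → IsTriple i j →
    LocSeq (D Z) (D X) (D U)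
  /-- homotopy invariance: affine bundles `π : E → X` of dimension `N` -/
  bundle : ∀ (N : ℕ) {E X : Sch F} (π : E ⟶ X) (a b : ℤ), FT True X → FT True E →
    IsAffineBundle N π.left → Datum.Iso (D X a b) (D E (a + 2 * N) (b + N))
  /-- the product with the multiplicative group, `gms F A = Spec A[t, 1/t]` -/
  torus : ∀ (A : Type) [CommRing A] [Algebra F A] [Algebra.FiniteType F A] (a b : ℤ),
    Datum.Iso (D (gms F A) (a + 1) b)
      (Datum.prod (D (aff F A) (a - 1) (b - 1)) (D (aff F A) a b))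
  /-- the point has no homology in degrees different from zero; the K-groups of finite fields in
  positive degrees are torsion (Quillen) -/
  point : ∀ a b : ℤ, a ≠ 0 → (D (aff F F) a b).Zero

variable {F : Type} [Field F] (𝒯 : Thy F ι p)

/-- the theory in the form of the engine -/
theorem Thy.tv : Tv (R := F) True Datum.Iso Datum.Zero Datum.prod 𝒯.D where
  symm h := h.symm
  trans h h' := h.trans h'
  triv h h0 := h.zero h0
  iso a b hX hY e := 𝒯.iso a b hX hY e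
  loc i j a b hX ht h0 h1 := by
    obtain ⟨i, j, d, hs⟩ := 𝒯.localization i j hX ht
    exact Datum.iso_of_exact (j (a + 1) b) (d a b) (i a b) (hs a b).2.1 (hs a b).2.2 h1 h0
  bundle N E X π a b hX hE h := 𝒯.bundle N π a b hX hE h
  ctrans h h' := h.trans h'
  csymm h := h.symm
  cprod h h' := Datum.prod_iso h h'
  torus A _ _ _ a b := 𝒯.torus A a b

/-- the dimension of the hypersurface `∑ yₖ gₖ(x) = 1` for polynomials `gₖ` in `n` variables -/
def dm (n : ℕ) (κ : Type) [Fintype κ] : ℤ := n + (Fintype.card κ - 1 : ℕ)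

/-- the datum of the groups `H^i(j)` of the hypersurface `∑ yₖ gₖ(x) = 1` -/
noncomputable def Thy.coh {n : ℕ} {κ : Type} [Fintype κ] (g : κ → MvPolynomial (Fin n) F)
    (i j : ℤ) : Datum ι p := 𝒯.D (cub g) (2 * dm n κ - i) (dm n κ - j)

/-- the closed subscheme `g = 0` of the affine space -/
noncomputable def zer {R : Type} [CommRing R] {n : ℕ} {κ : Type} (g : κ → MvPolynomial (Fin n) R) :
    Sch R := aff R (MvPolynomial (Fin n) R ⧸ Ideal.span (Set.range g))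

theorem Thy.transfer {X : Sch F} (hX : InJ True X) :
    ∃ N m₀ : ℕ, ∀ m : ℕ, m₀ ≤ m → ∃ (κ : Type) (_ : Fintype κ)
      (g : κ → MvPolynomial (Fin (m + N)) F), Nonempty κ ∧ (∀ k, (g k).totalDegree ≤ 2) ∧
      (∀ a b : ℤ, Datum.Iso (𝒯.D X a b) (𝒯.D (zer g) (a + 2 * N) (b + N))) ∧
      ∀ i j : ℤ, i ≠ 0 → i ≠ -1 → Datum.Iso (𝒯.coh g i j) (𝒯.D X (2 * m - 1 - i) (m - j)) := by
  obtain ⟨N, m₀, h⟩ := CH.transfer 𝒯.tv.toTr hX
  refine ⟨N, m₀, fun m hm => ?_⟩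
  obtain ⟨κ, _, g, hne, hg, hz, hs⟩ := h m hm
  refine ⟨κ, inferInstance, g, hne, hg, hz, fun i j h0 h1 => ?_⟩
  have h2 := hs (2 * m - 1 - i) (m - j) (𝒯.point _ _ (by omega)) (𝒯.point _ _ (by omega))
  have e1 : 2 * (m : ℤ) - 1 - i + 1 + 2 * N + 2 * ((Fintype.card κ - 1 : ℕ) : ℤ) =
      2 * dm (m + N) κ - i := by
    unfold dm
    push_cast
    ring
  have e2 : (m : ℤ) - j + N + ((Fintype.card κ - 1 : ℕ) : ℤ) = dm (m + N) κ - j := by
    unfold dm
    push_cast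
    ring
  rw [e1, e2] at h2
  exact h2.symm

theorem Thy.zeros {n : ℕ} {κ : Type} [Fintype κ] (g : κ → MvPolynomial (Fin n) F) (i j : ℤ)
    (h0 : i ≠ 0) (h1 : i ≠ -1) : Datum.Iso (𝒯.coh g i j)
      (𝒯.D (zer g) (2 * n - 1 - i) (n - j)) := by
  have h2 := zer_cub 𝒯.tv.toTr g (2 * n - 1 - i) (n - j) (𝒯.point _ _ (by omega))
    (𝒯.point _ _ (by omega))
  have e1 : 2 * (n : ℤ) - 1 - i + 1 + 2 * ((Fintype.card κ - 1 : ℕ) : ℤ) =
      2 * dm n κ - i := by
    unfold dm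
    ring
  have e2 : (n : ℤ) - j + ((Fintype.card κ - 1 : ℕ) : ℤ) = dm n κ - j := by
    unfold dm
    ring
  rw [e1, e2] at h2
  exact h2.symm

/-- the hypersurface `∑ yₖ gₖ(x) = 0` -/
theorem Thy.sing {n : ℕ} {κ : Type} [Fintype κ] [Nonempty κ] (g : κ → MvPolynomial (Fin n) F)
    (a b : ℤ) (h0 : a ≠ 2 * n) (h1 : a + 1 ≠ 2 * n) (h2 : a + 2 ≠ 2 * n) :
    Datum.Iso (𝒯.D (sng g) (a + 2 * Fintype.card κ) (b + Fintype.card κ))
      (Datum.prod (𝒯.D (zer g) a b) (𝒯.D (zer g) (a + 1) (b + 1))) :=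
  sng_zer 𝒯.tv g a b (𝒯.point _ _ (by omega)) (𝒯.point _ _ (by omega))
    (𝒯.point _ _ (by omega)) (𝒯.point _ _ (by omega))

/-- The property `Q` is true for the groups `H^i(j)`, `i > 0`, of all hypersurfaces
`∑ yₖ gₖ(x) = 1`, `deg gₖ ≤ 2`. -/
def Thy.Cubics (Q : Datum ι p → Prop) : Prop :=
  ∀ (n : ℕ) (κ : Type) [Fintype κ] (g : κ → MvPolynomial (Fin n) F),
    (∀ k, (g k).totalDegree ≤ 2) → ∀ i j : ℤ, 0 < i → Q (𝒯.coh g i j)

/-- The property `Q` is true for the groups `H^i(j)`, `i > 0`, `2j - i = r`, of all hypersurfaces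
`∑ yₖ gₖ(x) = 1`, `deg gₖ ≤ 2`. -/
def Thy.CubicsR (Q : Datum ι p → Prop) (r : ℤ) : Prop :=
  ∀ (n : ℕ) (κ : Type) [Fintype κ] (g : κ → MvPolynomial (Fin n) F),
    (∀ k, (g k).totalDegree ≤ 2) → ∀ j : ℤ, 0 < 2 * j - r → Q (𝒯.coh g (2 * j - r) j)

/-- The property `Q` is true for all smooth varieties in the class `InJ`. -/
def Thy.SmoothJ (Q : Datum ι p → Prop) : Prop :=
  ∀ X : Sch F, InJ True X → Smooth X.hom → ∀ a b : ℤ, Q (𝒯.D X a b)

/-- The property `Q` is true for all varieties in the class `InJ`. -/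
def Thy.AllJ (Q : Datum ι p → Prop) : Prop :=
  ∀ X : Sch F, InJ True X → ∀ a b : ℤ, Q (𝒯.D X a b)

/-- The property `Q` is true for the groups in the bidegrees `(2b + r, b)` of all varieties in the
class `InJ`. -/
def Thy.AllR (Q : Datum ι p → Prop) (r : ℤ) : Prop :=
  ∀ X : Sch F, InJ True X → ∀ b : ℤ, Q (𝒯.D X (2 * b + r) b)

theorem Thy.allJ_iff (Q : Datum ι p → Prop) : 𝒯.AllJ Q ↔ ∀ r, 𝒯.AllR Q r := by
  constructor
  · exact fun h r X hX b => h X hX _ _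
  · intro h X hX a b
    have h1 := h (a - 2 * b) X hX b
    rw [add_sub_cancel] at h1
    exact h1

theorem Thy.cubics_iff (Q : Datum ι p → Prop) : 𝒯.Cubics Q ↔ ∀ r, 𝒯.CubicsR Q r := by
  constructor
  · exact fun h r n κ _ g hg j hj => h n κ g hg _ _ hj
  · intro h n κ _ g hg i j hi
    have h1 := h (2 * j - i) n κ g hg j (by omega)
    rw [sub_sub_cancel] at h1
    exact h1

theorem Thy.cubics_of_smoothJ {Q : Datum ι p → Prop} (h : 𝒯.SmoothJ Q) : 𝒯.Cubics Q :=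
  fun _ _ _ g _ _ _ _ => h (cub g) (inJ_aff True _) (smooth_cub g) _ _

/-- the degrees `r` and `r + 1` -/
theorem Thy.shift {Q : Datum ι p → Prop} (hQ : Datum.Invariant Q) (r : ℤ) :
    𝒯.AllR Q r ↔ 𝒯.CubicsR Q (r + 1) := by
  constructor
  · intro h n κ _ g _ j hj
    have h1 := (𝒯.zeros g (2 * j - (r + 1)) j (by omega) (by omega)).symm
    refine hQ _ _ h1 ?_
    have h2 := h (zer g) (inJ_aff True _) (n - j)
    have e : 2 * ((n : ℤ) - j) + r = 2 * n - 1 - (2 * j - (r + 1)) := by ring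
    rw [e] at h2
    exact h2
  · intro h X hX b
    obtain ⟨N, m₀, ht⟩ := 𝒯.transfer hX
    obtain ⟨m, hm1, hm2⟩ : ∃ m : ℕ, m₀ ≤ m ∧ 2 * b + r + 1 < 2 * (m : ℤ) :=
      ⟨m₀ + ((2 * b + r).toNat + 1), by omega, by omega⟩
    obtain ⟨κ, _, g, -, hg, -, hs⟩ := ht m hm1
    have h0 : (0 : ℤ) < 2 * ((m : ℤ) - b) - (r + 1) := by omega
    have h1 := hs (2 * ((m : ℤ) - b) - (r + 1)) ((m : ℤ) - b) (by omega) (by omega)
    have h2 := hQ _ _ h1 (h _ κ g hg ((m : ℤ) - b) h0)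
    have e1 : 2 * (m : ℤ) - 1 - (2 * ((m : ℤ) - b) - (r + 1)) = 2 * b + r := by ring
    rw [e1, sub_sub_cancel] at h2
    exact h2

/-- smooth varieties, all varieties, cubic hypersurfaces -/
theorem Thy.all_iff {Q : Datum ι p → Prop} (hQ : Datum.Invariant Q) :
    (𝒯.SmoothJ Q ↔ 𝒯.Cubics Q) ∧ (𝒯.AllJ Q ↔ 𝒯.Cubics Q) := by
  have h1 : 𝒯.AllJ Q ↔ 𝒯.Cubics Q := by
    rw [𝒯.allJ_iff, 𝒯.cubics_iff]
    constructor
    · intro h r
      have := (𝒯.shift hQ (r - 1)).mp (h _)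
      rwa [sub_add_cancel] at this
    · exact fun h r => (𝒯.shift hQ r).mpr (h _)
  exact ⟨⟨𝒯.cubics_of_smoothJ, fun h X hX _ => h1.mpr h X hX⟩, h1⟩

/-- from `r + 1` to `r` -/
theorem Thy.down {Q : Datum ι p → Prop} (hQ : Datum.Invariant Q) (hs : Datum.Summand Q) (r : ℤ)
    (h : 𝒯.AllR Q (r + 1)) : 𝒯.AllR Q r := by
  rintro X ⟨hX, N, B, _, _, _, π, hπ⟩ b
  refine hQ _ _ (𝒯.bundle N π (2 * b + r) b hX (ft_aff True) hπ).symm ?_
  have h1 : Algebra.FiniteType F (LaurentPolynomial B) := ft_laur B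
  have h2 := h (gms F B) (inJ_aff True _) (b + N)
  have h3 := 𝒯.torus B (2 * b + r + 2 * N) (b + N)
  rw [show 2 * (b + (N : ℤ)) + (r + 1) = 2 * b + r + 2 * N + 1 by ring] at h2
  exact hs _ _ (hQ _ _ (Datum.prod_comm _ _) (hQ _ _ h3 h2))

theorem Thy.down_le {Q : Datum ι p → Prop} (hQ : Datum.Invariant Q) (hs : Datum.Summand Q)
    (r : ℤ) (d : ℕ) (h : 𝒯.AllR Q (r + d)) : 𝒯.AllR Q r := by
  induction d with
  | zero => simpa using h
  | succ d ih =>
    refine ih (𝒯.down hQ hs _ ?_)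
    have e : r + ((d + 1 : ℕ) : ℤ) = r + d + 1 := by
      push_cast
      ring
    rw [e] at h
    exact h

/-- arbitrarily large degrees are sufficient -/
theorem Thy.unbounded {Q : Datum ι p → Prop} (hQ : Datum.Invariant Q) (hs : Datum.Summand Q)
    (h : ∀ r₀ : ℤ, ∃ r, r₀ ≤ r ∧ 𝒯.CubicsR Q r) : 𝒯.AllJ Q := by
  rw [𝒯.allJ_iff]
  intro r
  obtain ⟨r', hr, h1⟩ := h (r + 1)
  have h2 : 𝒯.AllR Q (r' - 1) := (𝒯.shift hQ _).mpr (by rwa [sub_add_cancel])
  refine 𝒯.down_le hQ hs r (r' - 1 - r).toNat ?_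
  have e : r + ((r' - 1 - r).toNat : ℤ) = r' - 1 := by omega
  rw [e]
  exact h2

end Pool.Agent.E8helper3.CH
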