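import Pool.Agent.E8helper3.CH.Engine

/-!
# The hypersurface `∑ yₖ gₖ(x) = 0`

Its complement in the affine space is the product of the hypersurface `∑ yₖ gₖ(x) = 1` with the
multiplicative group.
-/

set_option autoImplicit false

open CategoryTheory CategoryTheory.Limits AlgebraicGeometry MvPolynomial
open Pool.Agent.R904.CU Pool.Agent.Y116.UV

namespace Pool.Agent.E8helper3.CH

variable {R : Type} [CommRing R] {σ κ : Type} [Fintype κ] (g : κ → MvPolynomial σ R)

/-- the polynomial `∑ yₖ gₖ(x)` -/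
noncomputable def vPoly : MvPolynomial (κ ⊕ σ) R := ∑ k, X (Sum.inl k) * rename Sum.inr (g k)

/-- the ring of functions on the hypersurface `∑ yₖ gₖ(x) = 0` -/
abbrev VRg : Type := MvPolynomial (κ ⊕ σ) R ⧸ Ideal.span {vPoly g}

/-- the hypersurface `∑ yₖ gₖ(x) = 0` over `R` -/
noncomputable def sng : Sch R := aff R (VRg g)

theorem bigPoly_eq : bigPoly g = vPoly g - 1 := rfl

theorem totalDegree_vPoly (hg : ∀ k, (g k).totalDegree ≤ 2) : (vPoly g).totalDegree ≤ 3 := by
  unfold vPoly
  refine totalDegree_finsetSum_le fun k _ => ?_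
  refine (totalDegree_mul _ _).trans ?_
  have h1 : (X (Sum.inl k) : MvPolynomial (κ ⊕ σ) R).totalDegree ≤ 1 :=
    (totalDegree_monomial_le _ _).trans (by simp)
  have h2 : (rename Sum.inr (g k) : MvPolynomial (κ ⊕ σ) R).totalDegree ≤ 2 :=
    (totalDegree_rename_le _ _).trans (hg k)
  omega

theorem aeval_vPoly {B : Type} [CommRing B] [Algebra R B] (v : κ ⊕ σ → B) :
    aeval v (vPoly g) = ∑ k, v (Sum.inl k) * aeval (fun s => v (Sum.inr s)) (g k) := by
  unfold vPoly
  rw [map_sum]
  refine Finset.sum_congr rfl fun k _ => ?_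
  rw [map_mul, aeval_X, aeval_rename]
  rfl

/-- the functions on the complement -/
abbrev VLoc : Type := Localization.Away (vPoly g)

section generic

variable {Q : Type} [CommRing Q] [Algebra R Q] (e : QRg g ≃ₐ[R] Q)

/-- the coordinates on `∑ yₖ gₖ(x) = 1` -/
noncomputable def cd : MvPolynomial (κ ⊕ σ) R →ₐ[R] Q :=
  (e : QRg g →ₐ[R] Q).comp (Ideal.Quotient.mkₐ R _)

theorem cd_vPoly : cd g e (vPoly g) = 1 := by
  have h : cd g e (bigPoly g) = 0 := by
    change e (Ideal.Quotient.mk _ (bigPoly g)) = 0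
    rw [Ideal.Quotient.eq_zero_iff_mem.2 (Ideal.mem_span_singleton_self _), map_zero]
  rw [bigPoly_eq, map_sub, map_one, sub_eq_zero] at h
  exact h

/-- the coordinates of the product with the multiplicative group -/
noncomputable def lc : κ ⊕ σ → LaurentPolynomial Q :=
  Sum.elim (fun k => LaurentPolynomial.T 1 * LaurentPolynomial.C (cd g e (X (Sum.inl k))))
    fun s => LaurentPolynomial.C (cd g e (X (Sum.inr s)))

theorem aeval_lc_g (q : MvPolynomial σ R) : aeval (fun s => lc g e (Sum.inr s)) q =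
    LaurentPolynomial.C (cd g e (rename Sum.inr q)) := by
  induction q using MvPolynomial.induction_on with
  | C a =>
    rw [← algebraMap_eq, AlgHom.commutes, AlgHom.commutes, AlgHom.commutes]
    rfl
  | add q q' h h' => rw [map_add, h, h', map_add, map_add, map_add]
  | mul_X q s h =>
    rw [map_mul, h, aeval_X, map_mul, map_mul, map_mul, rename_X]
    rfl

theorem aeval_lc : aeval (lc g e) (vPoly g) = (LaurentPolynomial.T 1 : LaurentPolynomial Q) := by
  rw [aeval_vPoly]
  have h : ∀ k, lc g e (Sum.inl k) * aeval (fun s => lc g e (Sum.inr s)) (g k) =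
      LaurentPolynomial.T 1 * LaurentPolynomial.C (cd g e (X (Sum.inl k) *
        rename Sum.inr (g k))) := by
    intro k
    rw [aeval_lc_g, map_mul, map_mul LaurentPolynomial.C, ← mul_assoc]
    rfl
  rw [Finset.sum_congr rfl fun k _ => h k, ← Finset.mul_sum, ← map_sum, ← map_sum]
  have h2 : cd g e (∑ k, X (Sum.inl k) * rename Sum.inr (g k)) = 1 := cd_vPoly g e
  rw [h2, map_one, mul_one]

theorem isUnit_lc : IsUnit ((aeval (lc g e) :
    MvPolynomial (κ ⊕ σ) R →ₐ[R] LaurentPolynomial Q).toRingHom (vPoly g)) := by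
  change IsUnit (aeval (lc g e) (vPoly g))
  rw [aeval_lc]
  exact LaurentPolynomial.isUnit_T 1

/-- to the product with the multiplicative group -/
noncomputable def vF : VLoc g →ₐ[R] LaurentPolynomial Q :=
  IsLocalization.Away.liftAlgHom (vPoly g) (f := aeval (lc g e)) (isUnit_lc g e)

theorem vF_alg (q : MvPolynomial (κ ⊕ σ) R) :
    vF g e (algebraMap (MvPolynomial (κ ⊕ σ) R) (VLoc g) q) = aeval (lc g e) q :=
  IsLocalization.Away.lift_eq (vPoly g) (isUnit_lc g e) q

/-- the function `∑ yₖ gₖ(x)` is invertible -/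
theorem isUnit_w : IsUnit (algebraMap (MvPolynomial (κ ⊕ σ) R) (VLoc g) (vPoly g)) :=
  IsLocalization.Away.algebraMap_isUnit _

/-- the inverse of `∑ yₖ gₖ(x)` -/
noncomputable def wi : VLoc g := IsLocalization.Away.invSelf (vPoly g)

theorem w_wi : algebraMap (MvPolynomial (κ ⊕ σ) R) (VLoc g) (vPoly g) * wi g = 1 :=
  IsLocalization.Away.mul_invSelf _

/-- the coordinates on the complement, after the normalization -/
noncomputable def nc : κ ⊕ σ → VLoc g :=
  Sum.elim (fun k => algebraMap (MvPolynomial (κ ⊕ σ) R) (VLoc g) (X (Sum.inl k)) * wi g)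
    fun s => algebraMap (MvPolynomial (κ ⊕ σ) R) (VLoc g) (X (Sum.inr s))

theorem aeval_nc_g (q : MvPolynomial σ R) : aeval (fun s => nc g (Sum.inr s)) q =
    algebraMap (MvPolynomial (κ ⊕ σ) R) (VLoc g) (rename Sum.inr q) := by
  induction q using MvPolynomial.induction_on with
  | C a =>
    rw [← algebraMap_eq, AlgHom.commutes, AlgHom.commutes]
    rfl
  | add q q' h h' => rw [map_add, h, h', map_add, map_add]
  | mul_X q s h =>
    rw [map_mul, h, aeval_X, map_mul, map_mul, rename_X]
    rfl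

theorem aeval_nc : aeval (nc g) (vPoly g) = 1 := by
  rw [aeval_vPoly]
  have h : ∀ k, nc g (Sum.inl k) * aeval (fun s => nc g (Sum.inr s)) (g k) =
      algebraMap (MvPolynomial (κ ⊕ σ) R) (VLoc g) (X (Sum.inl k) * rename Sum.inr (g k)) *
        wi g := by
    intro k
    rw [aeval_nc_g, map_mul]
    change algebraMap (MvPolynomial (κ ⊕ σ) R) (VLoc g) (X (Sum.inl k)) * wi g * _ = _
    ring
  rw [Finset.sum_congr rfl fun k _ => h k, ← Finset.sum_mul, ← map_sum]
  exact w_wi g

/-- the map from the functions on `∑ yₖ gₖ(x) = 1` -/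
noncomputable def vG1 : QRg g →ₐ[R] VLoc g :=
  Ideal.Quotient.liftₐ _ (aeval (nc g)) (by
    intro a ha
    have h : Ideal.span {bigPoly g} ≤
        RingHom.ker (aeval (nc g) : MvPolynomial (κ ⊕ σ) R →ₐ[R] VLoc g) := by
      rw [Ideal.span_le, Set.singleton_subset_iff]
      change aeval (nc g) (bigPoly g) = 0
      rw [bigPoly_eq, map_sub, aeval_nc, map_one, sub_self]
    exact h ha)

/-- the map from the functions on `∑ yₖ gₖ(x) = 1` -/
noncomputable def vG0 : Q →ₐ[R] VLoc g := (vG1 g).comp (e.symm : Q →ₐ[R] QRg g)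

theorem vG0_cd (q : MvPolynomial (κ ⊕ σ) R) : vG0 g e (cd g e q) = aeval (nc g) q := by
  change vG1 g (e.symm (e (Ideal.Quotient.mk _ q))) = _
  rw [e.symm_apply_apply]
  rfl

/-- from the product with the multiplicative group -/
noncomputable def vG : LaurentPolynomial Q →+* VLoc g :=
  LaurentPolynomial.eval₂ (vG0 g e).toRingHom (isUnit_w g).unit

theorem vG_C (a : Q) : vG g e (LaurentPolynomial.C a) = vG0 g e a := by
  rw [vG, LaurentPolynomial.eval₂_C]
  rfl

theorem vG_T : vG g e (LaurentPolynomial.T 1) =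
    algebraMap (MvPolynomial (κ ⊕ σ) R) (VLoc g) (vPoly g) := by
  rw [vG, LaurentPolynomial.eval₂_T, zpow_one]
  rfl

theorem vF_wi : vF g e (wi g) = LaurentPolynomial.T (-1) := by
  have h1 := congrArg (vF g e) (w_wi g)
  rw [map_mul, vF_alg, aeval_lc, map_one] at h1
  have h2 : (LaurentPolynomial.T (-1) : LaurentPolynomial Q) * LaurentPolynomial.T 1 = 1 := by
    rw [← LaurentPolynomial.T_add, neg_add_cancel, LaurentPolynomial.T_zero]
  calc vF g e (wi g) = (LaurentPolynomial.T (-1) * LaurentPolynomial.T 1) * vF g e (wi g) := by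
        rw [h2, one_mul]
    _ = LaurentPolynomial.T (-1) := by rw [mul_assoc, h1, mul_one]

theorem vF_vG0 (a : Q) : vF g e (vG0 g e a) = LaurentPolynomial.C a := by
  obtain ⟨b, rfl⟩ := e.surjective a
  obtain ⟨q, rfl⟩ := Ideal.Quotient.mk_surjective b
  change vF g e (vG0 g e (cd g e q)) = LaurentPolynomial.C (cd g e q)
  rw [vG0_cd]
  have h : (vF g e).comp (aeval (nc g)) =
      (IsScalarTower.toAlgHom R Q (LaurentPolynomial Q)).comp (cd g e) := by
    apply MvPolynomial.algHom_ext
    rintro (k | s)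
    · change vF g e (aeval (nc g) (X (Sum.inl k))) = LaurentPolynomial.C (cd g e (X (Sum.inl k)))
      rw [aeval_X]
      change vF g e (algebraMap (MvPolynomial (κ ⊕ σ) R) (VLoc g) (X (Sum.inl k)) * wi g) = _
      rw [map_mul, vF_alg, aeval_X, vF_wi]
      change LaurentPolynomial.T 1 * LaurentPolynomial.C _ * LaurentPolynomial.T (-1) = _
      rw [mul_comm (LaurentPolynomial.T 1), mul_assoc, ← LaurentPolynomial.T_add, add_neg_cancel,
        LaurentPolynomial.T_zero, mul_one]
    · change vF g e (aeval (nc g) (X (Sum.inr s))) = LaurentPolynomial.C (cd g e (X (Sum.inr s)))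
      rw [aeval_X]
      change vF g e (algebraMap (MvPolynomial (κ ⊕ σ) R) (VLoc g) (X (Sum.inr s))) = _
      rw [vF_alg, aeval_X]
      rfl
  exact congrArg (fun f : MvPolynomial (κ ⊕ σ) R →ₐ[R] _ => f q) h

theorem vF_vG : ((vF g e : VLoc g →ₐ[R] LaurentPolynomial Q) : VLoc g →+* LaurentPolynomial Q).comp
    (vG g e) = RingHom.id _ := by
  apply laurent_hom_ext
  · intro a
    change vF g e (vG g e (LaurentPolynomial.C a)) = LaurentPolynomial.C a
    rw [vG_C, vF_vG0]
  · change vF g e (vG g e (LaurentPolynomial.T 1)) = LaurentPolynomial.T 1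
    rw [vG_T, vF_alg, aeval_lc]

theorem vG_vF : (vG g e).comp ((vF g e : VLoc g →ₐ[R] LaurentPolynomial Q) :
    VLoc g →+* LaurentPolynomial Q) = RingHom.id _ := by
  apply IsLocalization.ringHom_ext (Submonoid.powers (vPoly g))
  apply MvPolynomial.ringHom_ext
  · intro r
    change vG g e (vF g e (algebraMap (MvPolynomial (κ ⊕ σ) R) (VLoc g) (C r))) =
      algebraMap (MvPolynomial (κ ⊕ σ) R) (VLoc g) (C r)
    rw [vF_alg, ← algebraMap_eq, AlgHom.commutes]
    have h : algebraMap R (LaurentPolynomial Q) r = LaurentPolynomial.C (algebraMap R Q r) := rfl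
    rw [h, vG_C, AlgHom.commutes]
    rfl
  · rintro (k | s)
    · change vG g e (vF g e (algebraMap (MvPolynomial (κ ⊕ σ) R) (VLoc g) (X (Sum.inl k)))) =
        algebraMap (MvPolynomial (κ ⊕ σ) R) (VLoc g) (X (Sum.inl k))
      rw [vF_alg, aeval_X]
      change vG g e (LaurentPolynomial.T 1 * LaurentPolynomial.C (cd g e (X (Sum.inl k)))) = _
      rw [map_mul, vG_T, vG_C, vG0_cd, aeval_X]
      change _ * (algebraMap (MvPolynomial (κ ⊕ σ) R) (VLoc g) (X (Sum.inl k)) * wi g) = _
      rw [mul_left_comm, w_wi, mul_one]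
    · change vG g e (vF g e (algebraMap (MvPolynomial (κ ⊕ σ) R) (VLoc g) (X (Sum.inr s)))) =
        algebraMap (MvPolynomial (κ ⊕ σ) R) (VLoc g) (X (Sum.inr s))
      rw [vF_alg, aeval_X]
      change vG g e (LaurentPolynomial.C (cd g e (X (Sum.inr s)))) = _
      rw [vG_C, vG0_cd, aeval_X]
      rfl

/-- the complement of `∑ yₖ gₖ(x) = 0` is `{∑ yₖ gₖ(x) = 1} × 𝔾ₘ` -/
noncomputable def vE : VLoc g ≃ₐ[R] LaurentPolynomial Q :=
  AlgEquiv.ofRingEquiv (f := RingEquiv.ofRingHom _ (vG g e) (vF_vG g e) (vG_vF g e))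
    (fun r => (vF g e).commutes r)

end generic

theorem ft_laur (A : Type) [CommRing A] [Algebra R A] [Algebra.FiniteType R A] :
    Algebra.FiniteType R (LaurentPolynomial A) := by
  have h : Algebra.FiniteType A (LaurentPolynomial A) :=
    AddMonoidAlgebra.finiteType_of_fg A ℤ
  exact Algebra.FiniteType.trans (S := A) inferInstance h

/-- the spectrum of `A[t, 1/t]` -/
noncomputable abbrev gms (R A : Type) [CommRing R] [CommRing A] [Algebra R A] : Sch R :=
  aff R (LaurentPolynomial A)

theorem ft_gms (sep : Prop) (A : Type) [CommRing A] [Algebra R A] [Algebra.FiniteType R A] :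
    FT sep (gms R A) := by
  have := ft_laur (R := R) A
  exact ft_aff sep

/-- the complement of the hypersurface `∑ yₖ gₖ(x) = 0` -/
noncomputable def vIso : gms R (QRg g) ≅ aff R (VLoc g) := affIso (vE g AlgEquiv.refl)

end Pool.Agent.E8helper3.CH
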