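import Pool.Agent.E8helper3.CH.Vf

/-!
# The transfer to the hypersurfaces `∑ yₖ gₖ(x) = 0`
-/

set_option autoImplicit false

open CategoryTheory CategoryTheory.Limits AlgebraicGeometry MvPolynomial
open Pool.Agent.R904.CU Pool.Agent.Y116.UV

namespace Pool.Agent.E8helper3.CH

/-- The formal properties of a theory `D X a b` with values in `𝒟` (with the relation `I` of
isomorphism, the property `Z` of being zero and the direct sum `pr`): the properties `Tr` and the
fundamental theorem for the product with the multiplicative group. -/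
structure Tv {R : Type} [CommRing R] (sep : Prop) {𝒟 : Type 1} (I : 𝒟 → 𝒟 → Prop) (Z : 𝒟 → Prop)
    (pr : 𝒟 → 𝒟 → 𝒟) (D : Sch R → ℤ → ℤ → 𝒟) : Prop extends
    Tr sep (fun X a b Y c d => I (D X a b) (D Y c d)) (fun X a b => Z (D X a b)) where
  ctrans : ∀ {A B C : 𝒟}, I A B → I B C → I A C
  csymm : ∀ {A B : 𝒟}, I A B → I B A
  cprod : ∀ {A A' B B' : 𝒟}, I A A' → I B B' → I (pr A B) (pr A' B')
  torus : ∀ (A : Type) [CommRing A] [Algebra R A] [Algebra.FiniteType R A] (a b : ℤ),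
    I (D (gms R A) (a + 1) b) (pr (D (aff R A) (a - 1) (b - 1)) (D (aff R A) a b))

section

variable {R : Type} [CommRing R] {sep : Prop} {𝒟 : Type 1} {I : 𝒟 → 𝒟 → Prop} {Z : 𝒟 → Prop}
  {pr : 𝒟 → 𝒟 → 𝒟} {D : Sch R → ℤ → ℤ → 𝒟} (h : Tv sep I Z pr D)

include h

theorem triv_space' (σ : Type) [Fintype σ] (a b : ℤ)
    (h0 : Z (D (aff R R) (a - 2 * Fintype.card σ) (b - Fintype.card σ))) :
    Z (D (aff R (MvPolynomial σ R)) a b) := by
  have h1 := h.bundle _ (spMap R σ) (a - 2 * Fintype.card σ) (b - Fintype.card σ) (ft_aff sep)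
    (ft_aff sep) (isAffineBundle_spMap R σ)
  rw [sub_add_cancel, sub_add_cancel] at h1
  exact h.triv h1 h0

/-- the hypersurfaces `∑ yₖ gₖ(x) = 0` and `∑ yₖ gₖ(x) = 1` -/
theorem sng_cub {σ κ : Type} [Fintype σ] [Fintype κ] (g : κ → MvPolynomial σ R) (a b : ℤ)
    (h0 : Z (D (aff R (MvPolynomial (κ ⊕ σ) R)) a b))
    (h1 : Z (D (aff R (MvPolynomial (κ ⊕ σ) R)) (a + 1) b)) :
    I (D (sng g) a b) (pr (D (cub g) (a - 1) (b - 1)) (D (cub g) a b)) := by
  have h2 : I (D (aff R (VLoc g)) (a + 1) b) (D (sng g) a b) :=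
    h.loc _ _ a b (ft_aff sep) (triple_away (vPoly g)) h0 h1
  have h3 : Algebra.FiniteType R (VLoc g) :=
    Algebra.FiniteType.trans (S := MvPolynomial (κ ⊕ σ) R) inferInstance inferInstance
  have h4 : I (D (gms R (QRg g)) (a + 1) b) (D (aff R (VLoc g)) (a + 1) b) :=
    h.iso _ _ (ft_gms sep (QRg g)) (ft_aff sep) ⟨vIso g⟩
  exact h.ctrans (h.csymm (h.ctrans h4 h2)) (h.torus (QRg g) a b)

/-- the hypersurface `∑ yₖ gₖ(x) = 0` and the common zeros of the `gₖ` -/
theorem sng_zer [IsNoetherianRing R] {n : ℕ} {κ : Type} [Fintype κ] [Nonempty κ]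
    (g : κ → MvPolynomial (Fin n) R) (a b : ℤ)
    (h0 : Z (D (aff R R) (a - 2 * n) (b - n))) (h1 : Z (D (aff R R) (a + 1 - 2 * n) (b - n)))
    (h2 : Z (D (aff R R) (a + 1 - 2 * n) (b + 1 - n)))
    (h3 : Z (D (aff R R) (a + 2 - 2 * n) (b + 1 - n))) :
    I (D (sng g) (a + 2 * Fintype.card κ) (b + Fintype.card κ))
      (pr (D (aff R (MvPolynomial (Fin n) R ⧸ Ideal.span (Set.range g))) a b)
        (D (aff R (MvPolynomial (Fin n) R ⧸ Ideal.span (Set.range g))) (a + 1) (b + 1))) := by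
  have hc : ((Fintype.card κ - 1 : ℕ) : ℤ) = Fintype.card κ - 1 := by
    have := Fintype.card_pos (α := κ)
    omega
  have hs : ((Fintype.card (κ ⊕ Fin n) : ℕ) : ℤ) = Fintype.card κ + n := by
    rw [Fintype.card_sum, Fintype.card_fin]
    push_cast
    rfl
  have h4 := zer_cub h.toTr g a b h0 h1
  have h5 := zer_cub h.toTr g (a + 1) (b + 1) h2 (by
    rw [show a + 1 + 1 - 2 * (n : ℤ) = a + 2 - 2 * n by ring]
    exact h3)
  rw [hc] at h4 h5
  have h6 := sng_cub h g (a + 2 * Fintype.card κ) (b + Fintype.card κ)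
    (triv_space' h _ _ _ (by
      rw [hs, show a + 2 * (Fintype.card κ : ℤ) - 2 * (Fintype.card κ + n) = a - 2 * n by ring,
        show b + (Fintype.card κ : ℤ) - (Fintype.card κ + n) = b - n by ring]
      exact h0))
    (triv_space' h _ _ _ (by
      rw [hs, show a + 2 * (Fintype.card κ : ℤ) + 1 - 2 * (Fintype.card κ + n) =
        a + 1 - 2 * n by ring, show b + (Fintype.card κ : ℤ) - (Fintype.card κ + n) = b - n by ring]
      exact h1))
  refine h.ctrans h6 (h.cprod (h.csymm ?_) (h.csymm ?_))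
  · rw [show a + 2 * (Fintype.card κ : ℤ) - 1 = a + 1 + 2 * (Fintype.card κ - 1) by ring,
      show b + (Fintype.card κ : ℤ) - 1 = b + (Fintype.card κ - 1) by ring]
    exact h4
  · rw [show a + 2 * (Fintype.card κ : ℤ) = a + 1 + 1 + 2 * (Fintype.card κ - 1) by ring,
      show b + (Fintype.card κ : ℤ) = b + 1 + (Fintype.card κ - 1) by ring]
    exact h5

end

end Pool.Agent.E8helper3.CH
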